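import Pool.Agent.R892.Half.Main

/-!
# Half-integral isomorphisms: construction of solutions
-/

set_option autoImplicit false
set_option linter.unusedSectionVars false

namespace Pool.Agent.R892.Half

open Pool.Agent.H958R2

variable {M K : ℕ}

/-- A block matrix. -/
def mat (D : ℕ) (bx : Fin (3 * M) → Bool → Bool → ℕ)
    (bt : Fin M → Bool → Bool → Bool → Bool → Bool → ℕ) : Vx M K → Vx M K → ℕ
  | .X o a, .X o' a' => if o' = o then bx o a a' else 0
  | .T e k a b, .T e' k' a' b' => if e' = e ∧ k' = k then bt e k a b a' b' else 0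
  | .P j, .P j' => if j' = j then D else 0
  | .Q j, .Q j' => if j' = j then D else 0
  | _, _ => 0

/-- Four terms. -/
def s4 (f : Bool → Bool → ℕ) : ℕ := f false false + (f false true + (f true false + f true true))

/-- The local conditions. -/
structure Loc (nm : Fin (3 * M) → ℕ) (g g' : Bool) (D : ℕ) (bx : Fin (3 * M) → Bool → Bool → ℕ)
    (bt : Fin M → Bool → Bool → Bool → Bool → Bool → ℕ) : Prop where
  rx : ∀ o a, bx o a false + bx o a true = D
  cx : ∀ o a, bx o false a + bx o true a = D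
  rt : ∀ e k a b, s4 (fun c d => bt e k a b c d) = D
  ct : ∀ e k a b, s4 (fun c d => bt e k c d a b) = D
  ch : ∀ o o', Nxt nm o o' → ∀ a a', bx o a a' = bx o' a a'
  t1 : ∀ e i k a b c, s4 (fun x y => if c = co (g && k) i x y then bt e k x y a b else 0) =
    bx (oc e i) c (co (g' && k) i a b)
  t2 : ∀ e i k a b c, s4 (fun x y => if c = co (g' && k) i x y then bt e k a b x y else 0) =
    bx (oc e i) (co (g && k) i a b) c

theorem Loc.swap {nm : Fin (3 * M) → ℕ} {g g' : Bool} {D : ℕ}
    {bx : Fin (3 * M) → Bool → Bool → ℕ} {bt : Fin M → Bool → Bool → Bool → Bool → Bool → ℕ}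
    (h : Loc nm g g' D bx bt) :
    Loc nm g' g D (fun o a a' => bx o a' a) (fun e k a b a' b' => bt e k a' b' a b) where
  rx := h.cx
  cx := h.rx
  rt := h.ct
  ct := h.rt
  ch o o' ho a a' := h.ch o o' ho a' a
  t1 := h.t2
  t2 := h.t1

theorem mat_swap (D : ℕ) (bx : Fin (3 * M) → Bool → Bool → ℕ)
    (bt : Fin M → Bool → Bool → Bool → Bool → Bool → ℕ) (u v : Vx M K) :
    mat D (fun o a a' => bx o a' a) (fun e k a b a' b' => bt e k a' b' a b) u v =
      mat D bx bt v u := by
  rcases u with ⟨o, a⟩ | ⟨e, k, a, b⟩ | j | j <;> rcases v with ⟨o', a'⟩ | ⟨e', k', a', b'⟩ | j' | j'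
    <;> simp only [mat]
  · by_cases h : o' = o
    · subst h; simp
    · simp [h, Ne.symm h]
  · by_cases h : e' = e ∧ k' = k
    · obtain ⟨rfl, rfl⟩ := h; simp
    · have h' : ¬ (e = e' ∧ k = k') := fun h' => h ⟨h'.1.symm, h'.2.symm⟩
      simp [h, h']
  · by_cases h : j' = j
    · subst h; simp
    · simp [h, Ne.symm h]
  · by_cases h : j' = j
    · subst h; simp
    · simp [h, Ne.symm h]

open Classical in
/-- The commuting identity for two vertices. -/
def Comm (A B : Vx M K → Vx M K → Prop) (N : Vx M K → Vx M K → ℕ) (u v : Vx M K) : Prop :=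
  ∑ w, (if A u w then N w v else 0) = ∑ w, (if B w v then N u w else 0)

theorem comm_swap {A B : Vx M K → Vx M K → Prop} (hA : ∀ u v, A u v → A v u)
    (hB : ∀ u v, B u v → B v u) {N N' : Vx M K → Vx M K → ℕ} (hN : ∀ u v, N' u v = N v u)
    {u v : Vx M K} (h : Comm B A N' v u) : Comm A B N u v := by
  classical
  unfold Comm at *
  simp only [hN] at h
  have e1 : ∀ w, (if A w u then N w v else 0) = (if A u w then N w v else 0) := fun w => by
    by_cases hb : A u w
    · rw [if_pos hb, if_pos (hA _ _ hb)]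
    · rw [if_neg hb, if_neg fun h => hb (hA _ _ h)]
  have e2 : ∀ w, (if B v w then N u w else 0) = (if B w v then N u w else 0) := fun w => by
    by_cases hb : B w v
    · rw [if_pos hb, if_pos (hB _ _ hb)]
    · rw [if_neg hb, if_neg fun h => hb (hB _ _ h)]
  rw [Finset.sum_congr rfl fun w _ => e1 w, Finset.sum_congr rfl fun w _ => e2 w] at h
  exact h.symm

section

variable {nm : Fin (3 * M) → ℕ} {g g' : Bool} {D : ℕ} {bx : Fin (3 * M) → Bool → Bool → ℕ}
  {bt : Fin M → Bool → Bool → Bool → Bool → Bool → ℕ}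

theorem mat_X (w : Vx M K) (o : Fin (3 * M)) (a : Bool) (h : ¬ IsX o w) :
    mat D bx bt w (.X o a) = 0 ∧ mat D bx bt (.X o a) w = 0 := by
  rcases w with ⟨o', a'⟩ | ⟨e', k', a', b'⟩ | j' | j'
  · have h' : ¬ o' = o := h
    exact ⟨if_neg (Ne.symm h'), if_neg h'⟩
  · exact ⟨rfl, rfl⟩
  · exact ⟨rfl, rfl⟩
  · exact ⟨rfl, rfl⟩

theorem mat_T (w : Vx M K) (e : Fin M) (k a b : Bool) (h : ¬ IsT e k w) :
    mat D bx bt w (.T e k a b) = 0 ∧ mat D bx bt (.T e k a b) w = 0 := by
  rcases w with ⟨o', a'⟩ | ⟨e', k', a', b'⟩ | j' | j'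
  · exact ⟨rfl, rfl⟩
  · have h' : ¬ (e' = e ∧ k' = k) := h
    exact ⟨if_neg fun h => h' ⟨h.1.symm, h.2.symm⟩, if_neg h'⟩
  · exact ⟨rfl, rfl⟩
  · exact ⟨rfl, rfl⟩

theorem mat_P (w : Vx M K) (j : Fin K) (h : w ≠ .P j) :
    mat D bx bt w (.P j) = 0 ∧ mat D bx bt (.P j) w = 0 := by
  rcases w with ⟨o', a'⟩ | ⟨e', k', a', b'⟩ | j' | j'
  · exact ⟨rfl, rfl⟩
  · exact ⟨rfl, rfl⟩
  · have h' : ¬ j' = j := fun h' => h (by rw [h'])
    exact ⟨if_neg (Ne.symm h'), if_neg h'⟩
  · exact ⟨rfl, rfl⟩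

theorem mat_Q (w : Vx M K) (j : Fin (K + 1)) (h : w ≠ .Q j) :
    mat D bx bt w (.Q j) = 0 ∧ mat D bx bt (.Q j) w = 0 := by
  rcases w with ⟨o', a'⟩ | ⟨e', k', a', b'⟩ | j' | j'
  · exact ⟨rfl, rfl⟩
  · exact ⟨rfl, rfl⟩
  · exact ⟨rfl, rfl⟩
  · have h' : ¬ j' = j := fun h' => h (by rw [h'])
    exact ⟨if_neg (Ne.symm h'), if_neg h'⟩

theorem mat_row (h : Loc nm g g' D bx bt) (u : Vx M K) : ∑ v, mat D bx bt u v = D := by
  rcases u with ⟨o, a⟩ | ⟨e, k, a, b⟩ | j | j
  · rw [sum_X o fun w hw => (mat_X w o a hw).2]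
    simpa [mat] using h.rx o a
  · rw [sum_T e k fun w hw => (mat_T w e k a b hw).2]
    simpa [mat, s4] using h.rt e k a b
  · rw [sum_one (.P j) fun w hw => (mat_P w j hw).2]
    simp [mat]
  · rw [sum_one (.Q j) fun w hw => (mat_Q w j hw).2]
    simp [mat]

theorem ifz {p : Prop} [Decidable p] {n : ℕ} (h : n = 0) : (if p then n else 0) = 0 := by
  rw [h]; exact ite_self _

theorem comm_P (h : Loc nm g g' D bx bt) (j : Fin K) (v : Vx M K) :
    Comm (Ad nm g) (Ad nm g') (mat D bx bt) (.P j) v := by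
  classical
  unfold Comm
  rw [sum_one (f := fun w => if Ad nm g' w v then mat D bx bt (.P j) w else 0) (.P j)
    fun w hw => ifz (mat_P w j hw).2]
  rcases v with ⟨o, a⟩ | ⟨e, k, a, b⟩ | i | i
  · rw [sum_X (f := fun w => if Ad nm g (.P j) w then mat D bx bt w (.X o a) else 0) o
      fun w hw => ifz (mat_X w o a hw).1]
    have := h.cx o a
    have e1 : ∀ g c, Ad nm g (.P j) (.X o c : Vx M K) ↔ j.1 = 4 * o.1 :=
      fun g c => ⟨fun h => h.elim id fun h => h.elim, fun h => Or.inl h⟩
    simp only [e1, mat, if_true]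
    by_cases hj : j.1 = 4 * o.1
    · simp only [hj, if_true]; exact this
    · simp only [hj, if_false, add_zero]
  · rw [sum_T (f := fun w => if Ad nm g (.P j) w then mat D bx bt w (.T e k a b) else 0) e k
      fun w hw => ifz (mat_T w e k a b hw).1]
    have := h.ct e k a b
    have e1 : ∀ g c d, Ad nm g (.P j) (.T e k c d : Vx M K) ↔ j.1 = 12 * e.1 + (1 + k.toNat) :=
      fun g c d => ⟨fun h => h.elim id fun h => h.elim, fun h => Or.inl h⟩
    simp only [e1, mat, if_true, and_self]
    by_cases hj : j.1 = 12 * e.1 + (1 + k.toNat)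
    · simp only [hj, if_true]; exact this
    · simp only [hj, if_false, add_zero]
  · rw [sum_one (f := fun w => if Ad nm g (.P j) w then mat D bx bt w (.P i) else 0) (.P i)
      fun w hw => ifz (mat_P w i hw).1]
    have e1 : ∀ g, Ad nm g (.P j) (.P i : Vx M K) ↔ (i.1 = j.1 + 1 ∨ j.1 = i.1 + 1) :=
      fun g => Iff.rfl
    simp only [e1, mat, if_true]
  · rw [sum_one (f := fun w => if Ad nm g (.P j) w then mat D bx bt w (.Q i) else 0) (.Q i)
      fun w hw => ifz (mat_Q w i hw).1]
    have e1 : ∀ g, Ad nm g (.P j) (.Q i : Vx M K) ↔ (i.1 = j.1 ∨ (j.1 = 0 ∧ i.1 = K)) :=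
      fun g => ⟨fun h => h.elim id fun h => h.elim, fun h => Or.inl h⟩
    simp only [e1, mat, if_true]

theorem comm_XX (h : Loc nm g g' D bx bt) (o : Fin (3 * M)) (a : Bool) (o' : Fin (3 * M))
    (a' : Bool) : Comm (Ad nm g) (Ad nm g') (mat D bx bt) (.X o a : Vx M K) (.X o' a') := by
  classical
  unfold Comm
  rw [sum_X (f := fun w => if Ad nm g (.X o a) w then mat D bx bt w (.X o' a') else 0) o'
      fun w hw => ifz (mat_X w o' a' hw).1,
    sum_X (f := fun w => if Ad nm g' w (.X o' a') then mat D bx bt (.X o a) w else 0) o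
      fun w hw => ifz (mat_X w o a hw).2]
  simp only [ad_XX, mat, if_true]
  by_cases hn : Nxt nm o o' ∨ Nxt nm o' o
  · have hb : ∀ a a', bx o a a' = bx o' a a' := fun a a' => by
      rcases hn with hn | hn
      · exact h.ch _ _ hn _ _
      · exact (h.ch _ _ hn _ _).symm
    simp only [hn, true_and, hb]
    cases a <;> cases a' <;> simp
  · simp only [hn, false_and, if_false]

theorem comm_XT (h : Loc nm g g' D bx bt) (o : Fin (3 * M)) (c : Bool) (e : Fin M)
    (k a b : Bool) : Comm (Ad nm g) (Ad nm g') (mat D bx bt) (.X o c : Vx M K) (.T e k a b) := by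
  classical
  obtain ⟨e', i, rfl⟩ := exists_oc o
  unfold Comm
  rw [sum_T (f := fun w => if Ad nm g (.X (oc e' i) c) w then mat D bx bt w (.T e k a b) else 0) e k
      fun w hw => ifz (mat_T w e k a b hw).1,
    sum_X (f := fun w => if Ad nm g' w (.T e k a b) then mat D bx bt (.X (oc e' i) c) w else 0)
      (oc e' i) fun w hw => ifz (mat_X w _ c hw).2]
  simp only [ad_XT, mat, if_true, and_self]
  by_cases he : e' = e
  · subst he
    simp only [true_and]
    have := h.t1 e' i k a b c
    unfold s4 at this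
    rw [this]
    cases co (g' && k) i a b <;> simp
  · simp only [he, false_and, if_false]

theorem comm_zero (u v : Vx M K) (h1 : ∀ w, Ad nm g u w → mat D bx bt w v = 0)
    (h2 : ∀ w, Ad nm g' w v → mat D bx bt u w = 0) :
    Comm (Ad nm g) (Ad nm g') (mat D bx bt) u v := by
  classical
  unfold Comm
  rw [Finset.sum_eq_zero, Finset.sum_eq_zero]
  · intro w _
    by_cases hb : Ad nm g' w v
    · rw [if_pos hb, h2 w hb]
    · rw [if_neg hb]
  · intro w _
    by_cases hb : Ad nm g u w
    · rw [if_pos hb, h1 w hb]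
    · rw [if_neg hb]

theorem comm_all (h : Loc nm g g' D bx bt) (u v : Vx M K) :
    Comm (Ad nm g) (Ad nm g') (mat D bx bt) u v := by
  have sw : ∀ {u v : Vx M K}, Comm (Ad nm g') (Ad nm g)
      (mat D (fun o a a' => bx o a' a) (fun e k a b a' b' => bt e k a' b' a b)) v u →
      Comm (Ad nm g) (Ad nm g') (mat D bx bt) u v :=
    fun hc => comm_swap (fun _ _ => Ad.symm) (fun _ _ => Ad.symm) (mat_swap D bx bt) hc
  rcases u with ⟨o, a⟩ | ⟨e, k, a, b⟩ | j | j
  · rcases v with ⟨o', a'⟩ | ⟨e', k', a', b'⟩ | j' | j'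
    · exact comm_XX h o a o' a'
    · exact comm_XT h o a e' k' a' b'
    · exact sw (comm_P h.swap j' _)
    · apply comm_zero
      · rintro (⟨o, a⟩ | ⟨e, k, a, b⟩ | j | j) hw
        · rfl
        · rfl
        · rfl
        · exact (hw.elim id id).elim
      · rintro (⟨o, a⟩ | ⟨e, k, a, b⟩ | j | j) hw
        · exact (hw.elim id id).elim
        · rfl
        · rfl
        · rfl
  · rcases v with ⟨o', a'⟩ | ⟨e', k', a', b'⟩ | j' | j'
    · exact sw (comm_XT h.swap o' a' e k a b)
    · apply comm_zero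
      · rintro (⟨o, a⟩ | ⟨e, k, a, b⟩ | j | j) hw
        · rfl
        · exact (hw.elim id id).elim
        · rfl
        · rfl
      · rintro (⟨o, a⟩ | ⟨e, k, a, b⟩ | j | j) hw
        · rfl
        · exact (hw.elim id id).elim
        · rfl
        · rfl
    · exact sw (comm_P h.swap j' _)
    · apply comm_zero
      · rintro (⟨o, a⟩ | ⟨e, k, a, b⟩ | j | j) hw
        · rfl
        · rfl
        · rfl
        · exact (hw.elim id id).elim
      · rintro (⟨o, a⟩ | ⟨e, k, a, b⟩ | j | j) hw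
        · rfl
        · exact (hw.elim id id).elim
        · rfl
        · rfl
  · exact comm_P h j v
  · rcases v with ⟨o', a'⟩ | ⟨e', k', a', b'⟩ | j' | j'
    · apply comm_zero
      · rintro (⟨o, a⟩ | ⟨e, k, a, b⟩ | j | j) hw
        · exact (hw.elim id id).elim
        · rfl
        · rfl
        · rfl
      · rintro (⟨o, a⟩ | ⟨e, k, a, b⟩ | j | j) hw
        · rfl
        · rfl
        · rfl
        · exact (hw.elim id id).elim
    · apply comm_zero
      · rintro (⟨o, a⟩ | ⟨e, k, a, b⟩ | j | j) hw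
        · rfl
        · exact (hw.elim id id).elim
        · rfl
        · rfl
      · rintro (⟨o, a⟩ | ⟨e, k, a, b⟩ | j | j) hw
        · rfl
        · rfl
        · rfl
        · exact (hw.elim id id).elim
    · exact sw (comm_P h.swap j' _)
    · apply comm_zero
      · rintro (⟨o, a⟩ | ⟨e, k, a, b⟩ | j | j) hw
        · rfl
        · rfl
        · rfl
        · exact (hw.elim id id).elim
      · rintro (⟨o, a⟩ | ⟨e, k, a, b⟩ | j | j) hw
        · rfl
        · rfl
        · rfl
        · exact (hw.elim id id).elim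

theorem Loc.sol (h : Loc nm g g' D bx bt) :
    Sol D (Ad nm g) (Ad nm g') (mat D bx bt : Vx M K → Vx M K → ℕ) := by
  exact ⟨mat_row h, fun v => (Finset.sum_congr rfl fun u _ => (mat_swap D bx bt v u).symm).trans
    (mat_row h.swap v), fun u v => comm_all h u v⟩

end

/-! ## The two solutions -/

/-- The index of the true variable. -/
def one (x y : Bool) : Fin 3 := bif x then 0 else bif y then 1 else 2

theorem exists_quarter (nm : Fin (3 * M) → ℕ) :
    ∃ N : Vx M K → Vx M K → ℕ, Sol 4 (Ad nm false) (Ad nm true) N := by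
  refine ⟨_, Loc.sol (D := 4) (bx := fun _ _ _ => 2) (bt := fun _ _ _ _ _ _ => 1) ⟨?_, ?_, ?_, ?_,
    ?_, ?_, ?_⟩⟩
  · intro o a; rfl
  · intro o a; rfl
  · intro e k a b; rfl
  · intro e k a b; rfl
  · intro o o' _ a a'; rfl
  · intro e i
    have : ∀ (i : Fin 3) (k a b c : Bool),
        s4 (fun x y => if c = co (false && k) i x y then 1 else 0) = 2 := by decide
    exact this i
  · intro e i
    have : ∀ (i : Fin 3) (k a b c : Bool),
        s4 (fun x y => if c = co (true && k) i x y then 1 else 0) = 2 := by decide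
    exact this i

theorem exists_half (nm : Fin (3 * M) → ℕ) (τ : ℕ → Bool)
    (hτ : ∀ e : Fin M, one3 (τ (nm (oc e 0))) (τ (nm (oc e 1))) (τ (nm (oc e 2))) = true) :
    ∃ N : Vx M K → Vx M K → ℕ, Sol 2 (Ad nm false) (Ad nm true) N := by
  have key : ∀ (e : Fin M) (i : Fin 3), τ (nm (oc e i)) =
      decide (i = one (τ (nm (oc e 0))) (τ (nm (oc e 1)))) := by
    intro e
    have : ∀ (i : Fin 3), (τ (nm (oc e i))) = (if i = 0 then τ (nm (oc e 0)) else
        if i = 1 then τ (nm (oc e 1)) else τ (nm (oc e 2))) := by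
      intro i
      fin_cases i <;> rfl
    have h2 : ∀ (x y z : Bool), one3 x y z = true → ∀ i : Fin 3,
        (if i = 0 then x else if i = 1 then y else z) = decide (i = one x y) := by decide
    intro i
    rw [this]
    exact h2 _ _ _ (hτ e) i
  refine ⟨_, Loc.sol (D := 2)
    (bx := fun o a a' => if τ (nm o) = true then (if a = a' then 2 else 0) else 1)
    (bt := fun e k a b a' b' =>
      if co (false && k) (one (τ (nm (oc e 0))) (τ (nm (oc e 1)))) a b =
        co (true && k) (one (τ (nm (oc e 0))) (τ (nm (oc e 1)))) a' b' then 1 else 0)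
      ⟨?_, ?_, ?_, ?_, ?_, ?_, ?_⟩⟩
  · intro o a
    by_cases h : τ (nm o) = true <;> cases a <;> simp [h]
  · intro o a
    by_cases h : τ (nm o) = true <;> cases a <;> simp [h]
  · intro e k a b
    generalize one (τ (nm (oc e 0))) (τ (nm (oc e 1))) = I
    revert I k a b
    decide
  · intro e k a b
    generalize one (τ (nm (oc e 0))) (τ (nm (oc e 1))) = I
    revert I k a b
    decide
  · intro o o' ho a a'
    rw [ho.1]
  · intro e i k a b c
    rw [key e i]
    generalize one (τ (nm (oc e 0))) (τ (nm (oc e 1))) = I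
    revert I i k a b c
    decide
  · intro e i k a b c
    rw [key e i]
    generalize one (τ (nm (oc e 0))) (τ (nm (oc e 1))) = I
    revert I i k a b c
    decide

end Pool.Agent.R892.Half
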