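import Mathlib
import Pool.Agent.H671R2.ZDefs

/-!
# Fractional isomorphisms with bounded denominators: the problem
-/

set_option autoImplicit false

namespace Pool.Agent.R892.Half

open Pool.Agent.NPC Pool.Agent.NPC.R671

open Classical in
/-- There is a doubly stochastic matrix `X` with `A X = X B`, where `A` and `B` are the adjacency
matrices of `G` and `H`, all of whose entries are integral multiples of `1 / D`. For `D = 1` this
says that `G` and `H` are isomorphic. -/
def FracIso (D : ℕ) {V : Type} [Fintype V] (G H : SimpleGraph V) : Prop :=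
  ∃ X ∈ doublyStochastic ℚ V, (∀ u v, ∃ k : ℕ, X u v = (k : ℚ) / (D : ℚ)) ∧
    G.adjMatrix ℚ * X = X * H.adjMatrix ℚ

/-- The decision problem. The input consists of the adjacency matrices of two graphs `G` and `H` on
the vertex set `{0, ..., n-1}`. -/
def FracIsoProblem (D : ℕ) (I : List (List Bool) × List (List Bool)) : Prop :=
  ∃ (n : ℕ) (G H : SimpleGraph (Fin n)), adjMatrix G = I.1 ∧ adjMatrix H = I.2 ∧ FracIso D G H

end Pool.Agent.R892.Half
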