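import Pool.Agent.R892.Half.Main

/-!
# Half-integral isomorphisms: the degrees are at most seven
-/

set_option autoImplicit false
set_option linter.unusedSectionVars false

namespace Pool.Agent.R892.Half

variable {M K : ℕ}

/-- Numbers of the neighbours. -/
def tag : Vx M K → Vx M K → ℕ
  | .X o _, .X o' _ => if o'.1 < o.1 then 0 else 1
  | .X o _, .T _ k a b => 2 + 2 * k.toNat + (if o.1 % 3 = 0 then b.toNat else a.toNat)
  | .X _ _, .P _ => 6
  | .T _ _ _ _, .X o _ => o.1 % 3
  | .T _ _ _ _, .P _ => 3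
  | .P j, .P j' => if j'.1 < j.1 then 0 else 1
  | .P j, .Q j' => if j'.1 = j.1 then 2 else 3
  | .P _, .X _ a => 4 + a.toNat
  | .P _, .T _ _ a b => 3 + 2 * a.toNat + b.toNat
  | _, _ => 0

theorem tag_lt (v u : Vx M K) : tag v u < 7 := by
  rcases v with ⟨o, a⟩ | ⟨e, k, a, b⟩ | j | j <;> rcases u with ⟨o', a'⟩ | ⟨e', k', a', b'⟩ | j' | j'
  all_goals simp only [tag]
  all_goals first
    | omega
    | (split <;> omega)
    | skip
  · have := k'.toNat_le; have := a'.toNat_le; have := b'.toNat_le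
    split <;> omega
  · have := a'.toNat_le; omega
  · have := a'.toNat_le; have := b'.toNat_le; omega

theorem nxt_unique {nm : Fin (3 * M) → ℕ} {o o' o'' : Fin (3 * M)} (h : Nxt nm o o')
    (h' : Nxt nm o o'') : o' = o'' := by
  rcases lt_trichotomy o' o'' with hlt | rfl | hlt
  · exact absurd h.1.symm (h'.2.2 o' h.2.1 hlt)
  · rfl
  · exact absurd h'.1.symm (h.2.2 o'' h'.2.1 hlt)

theorem nxt_unique' {nm : Fin (3 * M) → ℕ} {o o' o'' : Fin (3 * M)} (h : Nxt nm o' o)
    (h' : Nxt nm o'' o) : o' = o'' := by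
  rcases lt_trichotomy o' o'' with hlt | rfl | hlt
  · exact absurd (h'.1.trans h.1.symm) (h.2.2 o'' hlt h'.2.1)
  · rfl
  · exact absurd (h.1.trans h'.1.symm) (h'.2.2 o' hlt h.2.1)

theorem toNat_inj' {a b : Bool} (h : a.toNat = b.toNat) : a = b := by
  revert h; cases a <;> cases b <;> simp

theorem tag_inj {nm : Fin (3 * M) → ℕ} {g : Bool} (v u u' : Vx M K) (h : Ad nm g v u)
    (h' : Ad nm g v u') (ht : tag v u = tag v u') : u = u' := by
  rcases v with ⟨o, c⟩ | ⟨e, k, a, b⟩ | j | j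
  · obtain ⟨e, i, rfl⟩ := exists_oc o
    rcases u with ⟨o₁, a₁⟩ | ⟨e₁, k₁, a₁, b₁⟩ | j₁ | j₁ <;>
      rcases u' with ⟨o₂, a₂⟩ | ⟨e₂, k₂, a₂, b₂⟩ | j₂ | j₂ <;>
      try exact (h.elim id id).elim
    all_goals try exact (h'.elim id id).elim
    all_goals simp only [tag] at ht
    · rw [ad_XX] at h h'
      obtain ⟨h, rfl⟩ := h
      obtain ⟨h', rfl⟩ := h'
      congr 1
      rcases h with h | h <;> rcases h' with h' | h'
      · exact nxt_unique h h'
      · have e1 := h.2.1; have e2 := h'.2.1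
        rw [Fin.lt_def] at e1 e2
        rw [if_neg (by omega), if_pos (by omega)] at ht
        omega
      · have e1 := h.2.1; have e2 := h'.2.1
        rw [Fin.lt_def] at e1 e2
        rw [if_pos (by omega), if_neg (by omega)] at ht
        omega
      · exact nxt_unique' h h'
    · exfalso; revert ht; split <;> intro ht <;> omega
    · exfalso; revert ht; split <;> intro ht <;> omega
    · exfalso; revert ht; split <;> split <;> intro ht <;> omega
    · rw [ad_XT] at h h'
      obtain ⟨rfl, h⟩ := h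
      obtain ⟨rfl, h'⟩ := h'
      have e1 : (oc e i).1 % 3 = i.1 := by simp only [oc]; omega
      rw [e1] at ht
      have : k₁ = k₂ ∧ a₁ = a₂ ∧ b₁ = b₂ := by
        clear e1
        revert ht h h'
        revert i g c k₁ a₁ b₁ k₂ a₂ b₂
        decide
      obtain ⟨rfl, rfl, rfl⟩ := this
      rfl
    · have := k₁.toNat_le; have := a₁.toNat_le; have := b₁.toNat_le
      exfalso; revert ht; split <;> intro ht <;> omega
    · exfalso; revert ht; split <;> intro ht <;> omega
    · have := k₂.toNat_le; have := a₂.toNat_le; have := b₂.toNat_le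
      exfalso; revert ht; split <;> intro ht <;> omega
    · have h1 : j₁.1 = 4 * (oc e i).1 := h.elim (fun h => h.elim) id
      have h2 : j₂.1 = 4 * (oc e i).1 := h'.elim (fun h => h.elim) id
      rw [Fin.ext (h1.trans h2.symm)]
  · rcases u with ⟨o₁, a₁⟩ | ⟨e₁, k₁, a₁, b₁⟩ | j₁ | j₁ <;>
      rcases u' with ⟨o₂, a₂⟩ | ⟨e₂, k₂, a₂, b₂⟩ | j₂ | j₂ <;>
      try exact (h.elim id id).elim
    all_goals try exact (h'.elim id id).elim
    all_goals simp only [tag] at ht
    · obtain ⟨e₁, i₁, rfl⟩ := exists_oc o₁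
      obtain ⟨e₂, i₂, rfl⟩ := exists_oc o₂
      rw [ad_TX] at h h'
      obtain ⟨rfl, rfl⟩ := h
      obtain ⟨rfl, rfl⟩ := h'
      have : i₁ = i₂ := by
        simp only [oc] at ht
        ext
        omega
      rw [this]
    · omega
    · omega
    · have h1 : j₁.1 = 12 * e.1 + (1 + k.toNat) := h.elim (fun h => h.elim) id
      have h2 : j₂.1 = 12 * e.1 + (1 + k.toNat) := h'.elim (fun h => h.elim) id
      rw [Fin.ext (h1.trans h2.symm)]
  · have hX : ∀ o a, Ad nm g (.P j) (.X o a : Vx M K) → j.1 = 4 * o.1 :=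
      fun o a h => h.elim id fun h => h.elim
    have hT : ∀ e k a b, Ad nm g (.P j) (.T e k a b : Vx M K) → j.1 = 12 * e.1 + (1 + k.toNat) :=
      fun e k a b h => h.elim id fun h => h.elim
    have hP : ∀ i : Fin K, Ad nm g (.P j) (.P i : Vx M K) → (i.1 = j.1 + 1 ∨ j.1 = i.1 + 1) :=
      fun i h => h
    have hQ : ∀ i : Fin (K + 1), Ad nm g (.P j) (.Q i : Vx M K) →
        (i.1 = j.1 ∨ (j.1 = 0 ∧ i.1 = K)) := fun i h => h.elim id fun h => h.elim
    rcases u with ⟨o₁, a₁⟩ | ⟨e₁, k₁, a₁, b₁⟩ | j₁ | j₁ <;>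
      rcases u' with ⟨o₂, a₂⟩ | ⟨e₂, k₂, a₂, b₂⟩ | j₂ | j₂ <;> simp only [tag] at ht
    · have h1 := hX _ _ h; have h2 := hX _ _ h'
      rw [Fin.ext (show o₁.1 = o₂.1 by omega), toNat_inj' (show a₁.toNat = a₂.toNat by omega)]
    · have h1 := hX _ _ h; have h2 := hT _ _ _ _ h'; have := k₂.toNat_le
      omega
    · have h1 := hX _ _ h; have h2 := hP _ h'
      exfalso; revert ht; split <;> intro ht <;> omega
    · have h1 := hX _ _ h; have h2 := hQ _ h'
      exfalso; revert ht; split <;> intro ht <;> omega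
    · have h1 := hX _ _ h'; have h2 := hT _ _ _ _ h; have := k₁.toNat_le
      omega
    · have h1 := hT _ _ _ _ h; have h2 := hT _ _ _ _ h'
      have := k₁.toNat_le; have := k₂.toNat_le
      have := a₁.toNat_le; have := a₂.toNat_le
      have := b₁.toNat_le; have := b₂.toNat_le
      rw [Fin.ext (show e₁.1 = e₂.1 by omega), toNat_inj' (show k₁.toNat = k₂.toNat by omega),
        toNat_inj' (show a₁.toNat = a₂.toNat by omega),
        toNat_inj' (show b₁.toNat = b₂.toNat by omega)]
    · exfalso; revert ht; split <;> intro ht <;> omega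
    · have h1 := hT _ _ _ _ h; have h2 := hQ _ h'
      exfalso; revert ht; split <;> intro ht <;> omega
    · have h1 := hX _ _ h'; have h2 := hP _ h
      exfalso; revert ht; split <;> intro ht <;> omega
    · exfalso; revert ht; split <;> intro ht <;> omega
    · have h1 := hP _ h; have h2 := hP _ h'
      have : j₁.1 = j₂.1 := by revert ht; split <;> split <;> intro ht <;> omega
      rw [Fin.ext this]
    · exfalso; revert ht; split <;> split <;> intro ht <;> omega
    · have h1 := hX _ _ h'; have h2 := hQ _ h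
      exfalso; revert ht; split <;> intro ht <;> omega
    · have h1 := hT _ _ _ _ h'; have h2 := hQ _ h
      exfalso; revert ht; split <;> intro ht <;> omega
    · exfalso; revert ht; split <;> split <;> intro ht <;> omega
    · have h1 := hQ _ h; have h2 := hQ _ h'
      have : j₁.1 = j₂.1 := by revert ht; split <;> split <;> intro ht <;> omega
      rw [Fin.ext this]
  · rcases u with ⟨o₁, a₁⟩ | ⟨e₁, k₁, a₁, b₁⟩ | j₁ | j₁ <;>
      rcases u' with ⟨o₂, a₂⟩ | ⟨e₂, k₂, a₂, b₂⟩ | j₂ | j₂ <;>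
      try exact (h.elim id id).elim
    all_goals try exact (h'.elim id id).elim
    have h1 : j.1 = j₁.1 ∨ (j₁.1 = 0 ∧ j.1 = K) := h.elim (fun h => h.elim) id
    have h2 : j.1 = j₂.1 ∨ (j₂.1 = 0 ∧ j.1 = K) := h'.elim (fun h => h.elim) id
    rw [Fin.ext (show j₁.1 = j₂.1 by omega)]

theorem degree_le (nm : Fin (3 * M) → ℕ) (g : Bool) (v : Vx M K) :
    {u | Ad nm g v u}.ncard ≤ 7 := by
  have h1 : (Set.Iio 7 : Set ℕ).ncard = 7 := by
    rw [← Finset.coe_Iio, Set.ncard_coe_finset]; rfl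
  rw [← h1]
  refine Set.ncard_le_ncard_of_injOn (fun u => tag v u) (fun u _ => tag_lt v u) ?_
    (Set.finite_Iio 7)
  intro u hu u' hu' h
  exact tag_inj v u u' hu hu' h

end Pool.Agent.R892.Half
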