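import Mathlib

/-!
# Fractional isomorphisms with bounded denominators: general facts
-/

set_option autoImplicit false
set_option linter.unusedSectionVars false

namespace Pool.Agent.R892.Half

variable {V : Type} [Fintype V]

open Classical in
/-- `N / D` is a doubly stochastic matrix `X` with `A X = X B`. -/
def Sol (D : ℕ) (A B : V → V → Prop) (N : V → V → ℕ) : Prop :=
  (∀ u, ∑ v, N u v = D) ∧ (∀ v, ∑ u, N u v = D) ∧
    ∀ u v, ∑ w, (if A u w then N w v else 0) = ∑ w, (if B w v then N u w else 0)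

/-- The predicates agree along the matrix. -/
def Cpt (N : V → V → ℕ) (p q : V → Prop) : Prop := ∀ u v, N u v ≠ 0 → (p u ↔ q v)

theorem Cpt.and {N : V → V → ℕ} {p q p' q' : V → Prop} (h : Cpt N p q) (h' : Cpt N p' q') :
    Cpt N (fun u => p u ∧ p' u) (fun u => q u ∧ q' u) :=
  fun u v hn => and_congr (h u v hn) (h' u v hn)

theorem Cpt.not {N : V → V → ℕ} {p q : V → Prop} (h : Cpt N p q) :
    Cpt N (fun u => ¬ p u) (fun u => ¬ q u) :=
  fun u v hn => not_congr (h u v hn)

theorem Cpt.true {N : V → V → ℕ} : Cpt N (fun _ => True) (fun _ => True) :=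
  fun _ _ _ => Iff.rfl

theorem eq_of_compat {D : ℕ} {N : V → V → ℕ} (h1 : ∀ u, ∑ v, N u v = D)
    (h2 : ∀ v, ∑ u, N u v = D) {f g : V → ℤ} (hf : ∀ u, ∑ v, (N u v : ℤ) * g v = D * f u)
    (hg : ∀ v, ∑ u, (N u v : ℤ) * f u = D * g v) {u v : V} (huv : N u v ≠ 0) : f u = g v := by
  have h1' : ∀ u, ∑ v, (N u v : ℤ) = D := fun u => by rw [← h1 u]; push_cast; rfl
  have h2' : ∀ v, ∑ u, (N u v : ℤ) = D := fun v => by rw [← h2 v]; push_cast; rfl
  have e1 : ∑ u, ∑ v, (N u v : ℤ) * (f u - g v) ^ 2 =
      ∑ u, D * f u ^ 2 + ∑ v, D * g v ^ 2 - 2 * ∑ u, ∑ v, (N u v : ℤ) * f u * g v := by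
    have a1 : ∑ u, (D : ℤ) * f u ^ 2 = ∑ u, ∑ v, (N u v : ℤ) * f u ^ 2 :=
      Finset.sum_congr rfl fun u _ => by rw [← Finset.sum_mul, h1']
    have a2 : ∑ v, (D : ℤ) * g v ^ 2 = ∑ u, ∑ v, (N u v : ℤ) * g v ^ 2 := by
      rw [Finset.sum_comm]
      exact Finset.sum_congr rfl fun v _ => by rw [← Finset.sum_mul, h2']
    rw [a1, a2, Finset.mul_sum, ← Finset.sum_add_distrib, ← Finset.sum_sub_distrib]
    refine Finset.sum_congr rfl fun u _ => ?_
    rw [Finset.mul_sum, ← Finset.sum_add_distrib, ← Finset.sum_sub_distrib]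
    exact Finset.sum_congr rfl fun v _ => by ring
  have e2 : ∑ u, ∑ v, (N u v : ℤ) * f u * g v = ∑ u, (D : ℤ) * f u ^ 2 := by
    refine Finset.sum_congr rfl fun u _ => ?_
    have : ∀ v, (N u v : ℤ) * f u * g v = f u * ((N u v : ℤ) * g v) := fun v => by ring
    simp only [this]
    rw [← Finset.mul_sum, hf]
    ring
  have e3 : ∑ u, ∑ v, (N u v : ℤ) * f u * g v = ∑ v, (D : ℤ) * g v ^ 2 := by
    rw [Finset.sum_comm]
    refine Finset.sum_congr rfl fun v _ => ?_
    rw [← Finset.sum_mul, hg]
    ring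
  have e4 : ∑ u, ∑ v, (N u v : ℤ) * (f u - g v) ^ 2 = 0 := by
    rw [e1]
    linarith
  have hnn : ∀ u v, 0 ≤ (N u v : ℤ) * (f u - g v) ^ 2 := fun u v => by positivity
  have e5 := (Finset.sum_eq_zero_iff_of_nonneg fun u _ =>
    Finset.sum_nonneg fun v _ => hnn u v).1 e4 u (Finset.mem_univ _)
  have e6 := (Finset.sum_eq_zero_iff_of_nonneg fun v _ => hnn u v).1 e5 v (Finset.mem_univ _)
  rcases mul_eq_zero.1 e6 with h | h
  · exact absurd (by exact_mod_cast h) huv
  · have := pow_eq_zero_iff (two_ne_zero) |>.1 h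
    linarith

open Classical in
theorem count_aux {D : ℕ} (P Q : V → V → Prop) (p q : V → Prop) (N : V → V → ℕ)
    (h1 : ∀ u, ∑ v, N u v = D)
    (h3 : ∀ u v, ∑ w, (if P u w then N w v else 0) = ∑ w, (if Q w v then N u w else 0))
    (hpq : Cpt N p q) (u : V) :
    ∑ v, (N u v : ℤ) * ((Finset.univ.filter fun w => Q v w ∧ q w).card : ℤ) =
      D * ((Finset.univ.filter fun w => P u w ∧ p w).card : ℤ) := by
  have a1 : ∑ v, (N u v : ℤ) * ((Finset.univ.filter fun w => Q v w ∧ q w).card : ℤ) =
      ∑ w, ∑ v, (if q w then (if Q v w then (N u v : ℤ) else 0) else 0) := by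
    rw [Finset.sum_comm]
    refine Finset.sum_congr rfl fun v _ => ?_
    rw [Finset.card_filter]
    push_cast
    rw [Finset.mul_sum]
    refine Finset.sum_congr rfl fun w _ => ?_
    by_cases hq : q w <;> by_cases hQ : Q v w <;> simp [hq, hQ]
  have a2 : ∀ w, ∑ v, (if q w then (if Q v w then (N u v : ℤ) else 0) else 0) =
      ∑ v, (if P u v then (if q w then (N v w : ℤ) else 0) else 0) := by
    intro w
    by_cases hq : q w
    · have := h3 u w
      have h' : ((∑ v, (if P u v then N v w else 0) : ℕ) : ℤ) =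
        ((∑ v, (if Q v w then N u v else 0) : ℕ) : ℤ) := by rw [this]
      push_cast at h'
      simp only [hq, if_true]
      exact h'.symm
    · simp [hq]
  rw [a1, Finset.sum_congr rfl fun w _ => a2 w, Finset.sum_comm]
  have a3 : ∀ v, ∑ w, (if P u v then (if q w then (N v w : ℤ) else 0) else 0) =
      if P u v ∧ p v then (D : ℤ) else 0 := by
    intro v
    by_cases hP : P u v
    · simp only [hP, if_true, true_and]
      by_cases hp : p v
      · rw [if_pos hp, ← h1 v]
        push_cast
        refine Finset.sum_congr rfl fun w _ => ?_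
        by_cases hn : N v w = 0
        · simp [hn]
        · rw [if_pos ((hpq v w hn).1 hp)]
      · rw [if_neg hp]
        refine Finset.sum_eq_zero fun w _ => ?_
        by_cases hn : N v w = 0
        · simp [hn]
        · rw [if_neg fun h => hp ((hpq v w hn).2 h)]
    · simp [hP]
  rw [Finset.sum_congr rfl fun v _ => a3 v, Finset.card_filter]
  push_cast
  rw [Finset.mul_sum]
  refine Finset.sum_congr rfl fun v _ => ?_
  by_cases h : P u v ∧ p v <;> simp [h]

open Classical in
/-- The number of neighbours with a property is preserved. -/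
theorem Sol.count {D : ℕ} {A B : V → V → Prop} {N : V → V → ℕ} (h : Sol D A B N)
    (hA : ∀ u v, A u v → A v u) (hB : ∀ u v, B u v → B v u) {p q : V → Prop} (hpq : Cpt N p q)
    {u v : V} (huv : N u v ≠ 0) :
    (Finset.univ.filter fun w => A u w ∧ p w).card =
      (Finset.univ.filter fun w => B v w ∧ q w).card := by
  obtain ⟨h1, h2, h3⟩ := h
  have e1 := count_aux A B p q N h1 h3 hpq
  have e2 := count_aux B A q p (fun v u => N u v) h2 (by
    intro v u
    have := h3 u v
    have f1 : ∀ w, (if B v w then N u w else 0) = (if B w v then N u w else 0) := fun w => by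
      by_cases hb : B v w
      · rw [if_pos hb, if_pos (hB _ _ hb)]
      · rw [if_neg hb, if_neg fun h => hb (hB _ _ h)]
    have f2 : ∀ w, (if A w u then N w v else 0) = (if A u w then N w v else 0) := fun w => by
      by_cases hb : A w u
      · rw [if_pos hb, if_pos (hA _ _ hb)]
      · rw [if_neg hb, if_neg fun h => hb (hA _ _ h)]
    rw [Finset.sum_congr rfl fun w _ => f1 w, Finset.sum_congr rfl fun w _ => f2 w]
    exact this.symm) (fun v u hn => (hpq u v hn).symm)
  have := eq_of_compat (D := D) h1 h2 (f := fun u => ((Finset.univ.filter fun w => A u w ∧ p w).card : ℤ))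
    (g := fun v => ((Finset.univ.filter fun w => B v w ∧ q w).card : ℤ)) e1 e2 huv
  exact_mod_cast this

/-- A predicate defined by the number of neighbours with a compatible property is compatible. -/
theorem Sol.cpt {D : ℕ} {A B : V → V → Prop} {N : V → V → ℕ} (h : Sol D A B N)
    (hA : ∀ u v, A u v → A v u) (hB : ∀ u v, B u v → B v u) {p q : V → Prop} (hpq : Cpt N p q)
    (P : ℕ → Prop) :
    Cpt N (fun u => P (Nat.card {w // A u w ∧ p w})) (fun v => P (Nat.card {w // B v w ∧ q w})) := by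
  classical
  intro u v huv
  have := h.count hA hB hpq huv
  have e1 : Nat.card {w // A u w ∧ p w} = (Finset.univ.filter fun w => A u w ∧ p w).card := by
    rw [Nat.card_eq_fintype_card, Fintype.card_subtype]
  have e2 : Nat.card {w // B v w ∧ q w} = (Finset.univ.filter fun w => B v w ∧ q w).card := by
    rw [Nat.card_eq_fintype_card, Fintype.card_subtype]
  show P _ ↔ P _
  rw [e1, e2, this]

/-- Having a neighbour with a compatible property is compatible. -/
theorem Sol.ex {D : ℕ} {A B : V → V → Prop} {N : V → V → ℕ} (h : Sol D A B N)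
    (hA : ∀ u v, A u v → A v u) (hB : ∀ u v, B u v → B v u) {p q : V → Prop} (hpq : Cpt N p q) :
    Cpt N (fun u => ∃ w, A u w ∧ p w) (fun v => ∃ w, B v w ∧ q w) := by
  classical
  intro u v huv
  have := h.count hA hB hpq huv
  constructor
  · rintro ⟨w, hw⟩
    have hpos : 0 < (Finset.univ.filter fun w => A u w ∧ p w).card :=
      Finset.card_pos.2 ⟨w, Finset.mem_filter.2 ⟨Finset.mem_univ _, hw⟩⟩
    rw [this] at hpos
    obtain ⟨w', hw'⟩ := Finset.card_pos.1 hpos
    exact ⟨w', (Finset.mem_filter.1 hw').2⟩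
  · rintro ⟨w, hw⟩
    have hpos : 0 < (Finset.univ.filter fun w => B v w ∧ q w).card :=
      Finset.card_pos.2 ⟨w, Finset.mem_filter.2 ⟨Finset.mem_univ _, hw⟩⟩
    rw [← this] at hpos
    obtain ⟨w', hw'⟩ := Finset.card_pos.1 hpos
    exact ⟨w', (Finset.mem_filter.1 hw').2⟩

end Pool.Agent.R892.Half
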