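import Pool.Agent.R892.Half.Frac

/-!
# Half-integral isomorphisms: the gadgets
-/

set_option autoImplicit false
set_option linter.unusedSectionVars false

namespace Pool.Agent.R892.Half

/-- Vertices of the construction. -/
inductive Vx (M K : ℕ) : Type
  | X (o : Fin (3 * M)) (a : Bool)
  | T (e : Fin M) (k a b : Bool)
  | P (j : Fin K)
  | Q (j : Fin (K + 1))
  deriving DecidableEq, Fintype

variable {M K : ℕ}

/-- `o'` is the next copy of the same vertex after `o`. -/
def Nxt (nm : Fin (3 * M) → ℕ) (o o' : Fin (3 * M)) : Prop :=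
  nm o = nm o' ∧ o < o' ∧ ∀ k, o < k → k < o' → nm k ≠ nm o

/-- The adjacencies, in one direction. -/
def R (nm : Fin (3 * M) → ℕ) (g : Bool) : Vx M K → Vx M K → Prop
  | .X o a, .X o' a' => Nxt nm o o' ∧ a' = a
  | .T e k a b, .X o c => (o.1 = 3 * e.1 ∧ c = a) ∨ (o.1 = 3 * e.1 + 1 ∧ c = b) ∨
      (o.1 = 3 * e.1 + 2 ∧ c = xor (xor a b) (g && k))
  | .P j, .P j' => j'.1 = j.1 + 1
  | .P j, .Q j' => j'.1 = j.1 ∨ (j.1 = 0 ∧ j'.1 = K)
  | .P j, .X o _ => j.1 = 4 * o.1
  | .P j, .T e k _ _ => j.1 = 12 * e.1 + (1 + k.toNat)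
  | _, _ => False

/-- Adjacency. -/
def Ad (nm : Fin (3 * M) → ℕ) (g : Bool) (u v : Vx M K) : Prop := R nm g u v ∨ R nm g v u

theorem Ad.symm {nm : Fin (3 * M) → ℕ} {g : Bool} {u v : Vx M K} (h : Ad nm g u v) :
    Ad nm g v u := Or.symm h

theorem not_R_self (nm : Fin (3 * M) → ℕ) (g : Bool) (u : Vx M K) : ¬ R nm g u u := by
  rcases u with ⟨o, a⟩ | ⟨e, k, a, b⟩ | j | j
  · intro h
    exact absurd h.1.2.1 (lt_irrefl _)
  · exact id
  · intro h
    have h' : j.1 = j.1 + 1 := h
    omega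
  · exact id

/-- The vertex is a leaf. -/
def IsQ : Vx M K → Prop
  | .Q _ => True
  | _ => False

/-- The vertex is on the path. -/
def IsP : Vx M K → Prop
  | .P _ => True
  | _ => False

/-- The vertex is the `i`-th of the path. -/
def IsPn (i : ℕ) : Vx M K → Prop
  | .P j => j.1 = i
  | _ => False

/-- The vertex is in a block. -/
def IsX (o : Fin (3 * M)) : Vx M K → Prop
  | .X o' _ => o' = o
  | _ => False

/-- The vertex is in a gadget. -/
def IsT (e : Fin M) (k : Bool) : Vx M K → Prop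
  | .T e' k' _ _ => e' = e ∧ k' = k
  | _ => False

section Struct

variable {nm : Fin (3 * M) → ℕ} {g : Bool}

theorem card_le_one_iff (hK : K = 12 * M + 2) (u : Vx M K) :
    Nat.card {w // Ad nm g u w ∧ True} ≤ 1 ↔ IsQ u := by
  classical
  rw [Nat.card_eq_fintype_card, Fintype.card_subtype]
  rcases u with ⟨o, a⟩ | ⟨e, k, a, b⟩ | j | j
  · refine iff_of_false ?_ id
    rw [not_le, Finset.one_lt_card]
    refine ⟨.P ⟨4 * o.1, by omega⟩, ?_, ?_⟩
    · simp [Ad, R]
    · rcases (show o.1 % 3 = 0 ∨ o.1 % 3 = 1 ∨ o.1 % 3 = 2 by omega) with h | h | h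
      · refine ⟨.T ⟨o.1 / 3, by omega⟩ false a false, ?_, by simp⟩
        simp only [Finset.mem_filter, Finset.mem_univ, true_and, and_true]
        exact Or.inr (Or.inl ⟨by simp only; omega, rfl⟩)
      · refine ⟨.T ⟨o.1 / 3, by omega⟩ false false a, ?_, by simp⟩
        simp only [Finset.mem_filter, Finset.mem_univ, true_and, and_true]
        exact Or.inr (Or.inr (Or.inl ⟨by simp only; omega, rfl⟩))
      · refine ⟨.T ⟨o.1 / 3, by omega⟩ false a false, ?_, by simp⟩
        simp only [Finset.mem_filter, Finset.mem_univ, true_and, and_true]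
        exact Or.inr (Or.inr (Or.inr ⟨by simp only; omega, by simp⟩))
  · refine iff_of_false ?_ id
    rw [not_le, Finset.one_lt_card]
    refine ⟨.X ⟨3 * e.1, by omega⟩ a, ?_, .X ⟨3 * e.1 + 1, by omega⟩ b, ?_, ?_⟩
    · simp [Ad, R]
    · simp [Ad, R]
    · intro h
      injection h with h1 h2
      have := congrArg Fin.val h1
      simp only at this
      omega
  · refine iff_of_false ?_ id
    rw [not_le, Finset.one_lt_card]
    refine ⟨.Q ⟨j.1, by omega⟩, ?_, ?_⟩
    · simp [Ad, R]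
    · by_cases h : j.1 = 0
      · refine ⟨.P ⟨1, by omega⟩, ?_, by simp⟩
        simp only [Finset.mem_filter, Finset.mem_univ, true_and, and_true]
        exact Or.inl (by simp only [R]; omega)
      · refine ⟨.P ⟨j.1 - 1, by omega⟩, ?_, by simp⟩
        simp only [Finset.mem_filter, Finset.mem_univ, true_and, and_true]
        exact Or.inr (by simp only [R]; omega)
  · refine iff_of_true ?_ trivial
    rw [Finset.card_le_one]
    intro x hx y hy
    simp only [Finset.mem_filter, Finset.mem_univ, true_and, and_true] at hx hy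
    have key : ∀ x : Vx M K, Ad nm g (.Q j) x → ∃ i : Fin K, x = .P i ∧
        (j.1 = i.1 ∨ (i.1 = 0 ∧ j.1 = K)) := by
      intro x hx
      rcases x with ⟨o, a⟩ | ⟨e, k, a, b⟩ | i | i
      · exact (hx.elim id id).elim
      · exact (hx.elim id id).elim
      · exact ⟨i, rfl, hx.elim (fun h => h.elim) id⟩
      · exact (hx.elim id id).elim
    obtain ⟨i, rfl, hi⟩ := key x hx
    obtain ⟨i', rfl, hi'⟩ := key y hy
    congr 1
    ext
    omega

theorem leaf_nb (hK : K = 12 * M + 2) (u : Vx M K) :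
    (∃ w, Ad nm g u w ∧ IsQ w) ↔ IsP u := by
  rcases u with ⟨o, a⟩ | ⟨e, k, a, b⟩ | j | j
  · refine iff_of_false ?_ id
    rintro ⟨w, hw, hq⟩
    rcases w with ⟨o, a⟩ | ⟨e, k, a, b⟩ | j | j
    · exact hq
    · exact hq
    · exact hq
    · exact hw.elim id id
  · refine iff_of_false ?_ id
    rintro ⟨w, hw, hq⟩
    rcases w with ⟨o, a⟩ | ⟨e, k, a, b⟩ | j | j
    · exact hq
    · exact hq
    · exact hq
    · exact hw.elim id id
  · refine iff_of_true ⟨.Q ⟨j.1, by omega⟩, Or.inl (Or.inl rfl), trivial⟩ trivial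
  · refine iff_of_false ?_ id
    rintro ⟨w, hw, hq⟩
    rcases w with ⟨o, a⟩ | ⟨e, k, a, b⟩ | j | j
    · exact hq
    · exact hq
    · exact hq
    · exact hw.elim id id

theorem two_leaves (hK : K = 12 * M + 2) (u : Vx M K) :
    2 ≤ Nat.card {w // Ad nm g u w ∧ IsQ w} ↔ IsPn 0 u := by
  classical
  rw [Nat.card_eq_fintype_card, Fintype.card_subtype]
  by_cases hu : IsP u
  · rcases u with ⟨o, a⟩ | ⟨e, k, a, b⟩ | j | j
    · exact hu.elim
    · exact hu.elim
    · by_cases h : j.1 = 0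
      · refine iff_of_true ?_ h
        refine Finset.one_lt_card.2 ⟨.Q ⟨j.1, by omega⟩, ?_, .Q ⟨K, by omega⟩, ?_, ?_⟩
        · simp only [Finset.mem_filter, Finset.mem_univ, true_and]
          exact ⟨Or.inl (Or.inl rfl), trivial⟩
        · simp only [Finset.mem_filter, Finset.mem_univ, true_and]
          exact ⟨Or.inl (Or.inr ⟨h, rfl⟩), trivial⟩
        · intro h'
          injection h' with h1
          have := congrArg Fin.val h1
          simp only at this
          omega
      · refine iff_of_false ?_ h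
        have : (Finset.univ.filter fun w => Ad nm g (.P j) w ∧ IsQ w).card ≤ 1 := by
          rw [Finset.card_le_one]
          intro x hx y hy
          simp only [Finset.mem_filter, Finset.mem_univ, true_and] at hx hy
          rcases x with ⟨o, a⟩ | ⟨e, k, a, b⟩ | i | i
          · exact hx.2.elim
          · exact hx.2.elim
          · exact hx.2.elim
          rcases y with ⟨o, a⟩ | ⟨e, k, a, b⟩ | i' | i'
          · exact hy.2.elim
          · exact hy.2.elim
          · exact hy.2.elim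
          have h1 : i.1 = j.1 ∨ (j.1 = 0 ∧ i.1 = K) := hx.1.elim id fun h => h.elim
          have h2 : i'.1 = j.1 ∨ (j.1 = 0 ∧ i'.1 = K) := hy.1.elim id fun h => h.elim
          congr 1
          ext
          omega
        omega
    · exact hu.elim
  · have h0 : ¬ IsPn 0 u := by
      rcases u with ⟨o, a⟩ | ⟨e, k, a, b⟩ | j | j
      · exact id
      · exact id
      · exact (hu trivial).elim
      · exact id
    refine iff_of_false ?_ h0
    intro h
    have hpos : 0 < (Finset.univ.filter fun w => Ad nm g u w ∧ IsQ w).card := by omega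
    obtain ⟨w, hw⟩ := Finset.card_pos.1 hpos
    exact hu ((leaf_nb hK u).1 ⟨w, (Finset.mem_filter.1 hw).2⟩)

theorem succ_iff (i : ℕ) (u : Vx M K) (hi : i + 1 < K) :
    (IsP u ∧ ((∀ j ≤ i, ¬ IsPn j u) ∧ ∃ w, Ad nm g u w ∧ IsPn i w)) ↔ IsPn (i + 1) u := by
  rcases u with ⟨o, a⟩ | ⟨e, k, a, b⟩ | j | j
  · exact iff_of_false (fun h => h.1) id
  · exact iff_of_false (fun h => h.1) id
  · constructor
    · rintro ⟨-, h1, w, hw, hi⟩
      rcases w with ⟨o, a⟩ | ⟨e, k, a, b⟩ | j' | j'
      · exact hi.elim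
      · exact hi.elim
      · have hi' : j'.1 = i := hi
        rcases hw with hw | hw
        · have hw' : j'.1 = j.1 + 1 := hw
          exact absurd rfl (h1 j.1 (by omega))
        · have hw' : j.1 = j'.1 + 1 := hw
          show j.1 = i + 1
          omega
      · exact hi.elim
    · intro h
      have h' : j.1 = i + 1 := h
      refine ⟨trivial, fun k hk hk' => ?_, .P ⟨i, by omega⟩, Or.inr h', rfl⟩
      have : j.1 = k := hk'
      omega
  · exact iff_of_false (fun h => h.1) id

theorem isX_iff (hK : K = 12 * M + 2) (o : Fin (3 * M)) (u : Vx M K) :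
    ((¬ IsQ u ∧ ¬ IsP u) ∧ ∃ w, Ad nm g u w ∧ IsPn (4 * o.1) w) ↔ IsX o u := by
  rcases u with ⟨o', a⟩ | ⟨e, k, a, b⟩ | j | j
  · constructor
    · rintro ⟨-, w, hw, hi⟩
      rcases w with ⟨o, a⟩ | ⟨e, k, a, b⟩ | j' | j'
      · exact hi.elim
      · exact hi.elim
      · have hi' : j'.1 = 4 * o.1 := hi
        have hw' : j'.1 = 4 * o'.1 := hw.elim (fun h => h.elim) id
        show o' = o
        ext
        omega
      · exact hi.elim
    · intro h
      have h' : o' = o := h
      subst h'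
      exact ⟨⟨id, id⟩, .P ⟨4 * o'.1, by omega⟩, Or.inr rfl, rfl⟩
  · refine iff_of_false ?_ id
    rintro ⟨-, w, hw, hi⟩
    rcases w with ⟨o, a⟩ | ⟨e, k, a, b⟩ | j' | j'
    · exact hi.elim
    · exact hi.elim
    · have hi' : j'.1 = 4 * o.1 := hi
      have hw' : j'.1 = 12 * e.1 + (1 + k.toNat) := hw.elim (fun h => h.elim) id
      have := k.toNat_le
      omega
    · exact hi.elim
  · exact iff_of_false (fun h => h.1.2 trivial) id
  · exact iff_of_false (fun h => h.1.1 trivial) id

theorem isT_iff (hK : K = 12 * M + 2) (e : Fin M) (k : Bool) (u : Vx M K) :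
    ((¬ IsQ u ∧ ¬ IsP u) ∧ ∃ w, Ad nm g u w ∧ IsPn (12 * e.1 + (1 + k.toNat)) w) ↔
      IsT e k u := by
  have hk1 := k.toNat_le
  rcases u with ⟨o', a⟩ | ⟨e', k', a, b⟩ | j | j
  · refine iff_of_false ?_ id
    rintro ⟨-, w, hw, hi⟩
    rcases w with ⟨o, a⟩ | ⟨e, k, a, b⟩ | j' | j'
    · exact hi.elim
    · exact hi.elim
    · have hi' : j'.1 = 12 * e.1 + (1 + k.toNat) := hi
      have hw' : j'.1 = 4 * o'.1 := hw.elim (fun h => h.elim) id
      omega
    · exact hi.elim
  · have hk2 := k'.toNat_le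
    constructor
    · rintro ⟨-, w, hw, hi⟩
      rcases w with ⟨o, a⟩ | ⟨e, k, a, b⟩ | j' | j'
      · exact hi.elim
      · exact hi.elim
      · have hi' : j'.1 = 12 * e.1 + (1 + k.toNat) := hi
        have hw' : j'.1 = 12 * e'.1 + (1 + k'.toNat) := hw.elim (fun h => h.elim) id
        refine ⟨Fin.ext (by omega), ?_⟩
        have : k'.toNat = k.toNat := by omega
        revert this
        cases k <;> cases k' <;> simp
      · exact hi.elim
    · intro h
      obtain ⟨rfl, rfl⟩ : e' = e ∧ k' = k := h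
      exact ⟨⟨id, id⟩, .P ⟨12 * e'.1 + (1 + k'.toNat), by omega⟩, Or.inr rfl, rfl⟩
  · exact iff_of_false (fun h => h.1.2 trivial) id
  · exact iff_of_false (fun h => h.1.1 trivial) id

end Struct

/-! ## Classes are preserved -/

section Forward

variable {nm : Fin (3 * M) → ℕ} {g g' : Bool} {D : ℕ} {N : Vx M K → Vx M K → ℕ}

theorem cpt_congr {p q p' q' : Vx M K → Prop} (h : Cpt N p q) (h1 : ∀ u, p u ↔ p' u)
    (h2 : ∀ u, q u ↔ q' u) : Cpt N p' q' :=
  fun u v hn => ((h1 u).symm.trans (h u v hn)).trans (h2 v)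

theorem cpt_Q (hK : K = 12 * M + 2) (h : Sol D (Ad nm g) (Ad nm g') N) : Cpt N IsQ IsQ :=
  cpt_congr (h.cpt (fun _ _ => Ad.symm) (fun _ _ => Ad.symm) Cpt.true (· ≤ 1))
    (card_le_one_iff hK) (card_le_one_iff hK)

theorem cpt_P (hK : K = 12 * M + 2) (h : Sol D (Ad nm g) (Ad nm g') N) : Cpt N IsP IsP :=
  cpt_congr (h.ex (fun _ _ => Ad.symm) (fun _ _ => Ad.symm) (cpt_Q hK h)) (leaf_nb hK) (leaf_nb hK)

theorem cpt_Pn (hK : K = 12 * M + 2) (h : Sol D (Ad nm g) (Ad nm g') N) (i : ℕ) (hi : i < K) :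
    Cpt N (IsPn i) (IsPn i) := by
  induction i using Nat.strong_induction_on with
  | _ i ih =>
    rcases i with _ | i
    · exact cpt_congr (h.cpt (fun _ _ => Ad.symm) (fun _ _ => Ad.symm) (cpt_Q hK h) (2 ≤ ·))
        (two_leaves hK) (two_leaves hK)
    · have h1 : Cpt N (fun u => ∀ j ≤ i, ¬ IsPn j u) (fun u => ∀ j ≤ i, ¬ IsPn j u) :=
        fun u v hn => forall_congr' fun j => forall_congr' fun hj =>
          not_congr (ih j (by omega) (by omega) u v hn)
      have h2 := h.ex (fun _ _ => Ad.symm) (fun _ _ => Ad.symm) (ih i (by omega) (by omega))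
      exact cpt_congr ((cpt_P hK h).and (h1.and h2)) (fun u => succ_iff i u hi)
        (fun u => succ_iff i u hi)

theorem cpt_X (hK : K = 12 * M + 2) (h : Sol D (Ad nm g) (Ad nm g') N) (o : Fin (3 * M)) :
    Cpt N (IsX o) (IsX o) :=
  cpt_congr ((((cpt_Q hK h).not).and ((cpt_P hK h).not)).and
    (h.ex (fun _ _ => Ad.symm) (fun _ _ => Ad.symm) (cpt_Pn hK h (4 * o.1) (by omega))))
    (isX_iff hK o) (isX_iff hK o)

theorem cpt_T (hK : K = 12 * M + 2) (h : Sol D (Ad nm g) (Ad nm g') N) (e : Fin M) (k : Bool) :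
    Cpt N (IsT e k) (IsT e k) :=
  cpt_congr ((((cpt_Q hK h).not).and ((cpt_P hK h).not)).and
    (h.ex (fun _ _ => Ad.symm) (fun _ _ => Ad.symm) (cpt_Pn hK h (12 * e.1 + (1 + k.toNat))
      (by have := k.toNat_le; omega))))
    (isT_iff hK e k) (isT_iff hK e k)

end Forward

/-! ## Sums over blocks -/

theorem sum_X {f : Vx M K → ℕ} (o : Fin (3 * M)) (h : ∀ w, ¬ IsX o w → f w = 0) :
    ∑ w, f w = f (.X o false) + f (.X o true) := by
  rw [← Finset.sum_subset (Finset.subset_univ {Vx.X o false, Vx.X o true})]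
  · rw [Finset.sum_insert (by simp), Finset.sum_singleton]
  · intro w _ hw
    apply h
    intro hx
    rcases w with ⟨o', a⟩ | ⟨e, k, a, b⟩ | j | j
    · obtain rfl : o' = o := hx
      apply hw
      cases a <;> simp
    · exact hx
    · exact hx
    · exact hx

theorem sum_T {f : Vx M K → ℕ} (e : Fin M) (k : Bool) (h : ∀ w, ¬ IsT e k w → f w = 0) :
    ∑ w, f w = f (.T e k false false) + (f (.T e k false true) +
      (f (.T e k true false) + f (.T e k true true))) := by
  rw [← Finset.sum_subset (Finset.subset_univ {Vx.T e k false false, Vx.T e k false true,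
    Vx.T e k true false, Vx.T e k true true})]
  · rw [Finset.sum_insert (by simp), Finset.sum_insert (by simp), Finset.sum_insert (by simp),
      Finset.sum_singleton]
  · intro w _ hw
    apply h
    intro hx
    rcases w with ⟨o', a⟩ | ⟨e', k', a, b⟩ | j | j
    · exact hx
    · obtain ⟨rfl, rfl⟩ : e' = e ∧ k' = k := hx
      apply hw
      cases a <;> cases b <;> simp
    · exact hx
    · exact hx

theorem sum_one {f : Vx M K → ℕ} (w₀ : Vx M K) (h : ∀ w, w ≠ w₀ → f w = 0) :
    ∑ w, f w = f w₀ :=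
  Finset.sum_eq_single w₀ (fun w _ hw => h w hw) fun hw => absurd (Finset.mem_univ _) hw

end Pool.Agent.R892.Half
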