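import Pool.Agent.R892.Half.Back
import Pool.Agent.R892.Half.Deg
import Pool.Agent.H671R2.GraphEnc
import Pool.Agent.H671R2.PolyAuto

/-!
# Half-integral isomorphisms: labels of the vertices, and the two graphs
-/

set_option autoImplicit false
set_option linter.unusedSectionVars false
set_option linter.unusedSimpArgs false

namespace Pool.Agent.R892.Half

open Pool.Agent.NPC Pool.Agent.NPC.R671 Pool.Agent.H958R2

/-- Labels: kind, index, three booleans. -/
abbrev Lab : Type := ℕ × ℕ × Bool × Bool × Bool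

variable {M K : ℕ}

/-- The label of a vertex. -/
def lab : Vx M K → Lab
  | .X o a => (0, o.1, false, a, false)
  | .T e k a b => (1, e.1, k, a, b)
  | .P j => (2, j.1, false, false, false)
  | .Q j => (3, j.1, false, false, false)

theorem lab_injective : Function.Injective (lab (M := M) (K := K)) := by
  intro u v h
  rcases u with ⟨o, a⟩ | ⟨e, k, a, b⟩ | j | j <;>
    rcases v with ⟨o', a'⟩ | ⟨e', k', a', b'⟩ | j' | j' <;>
    simp only [lab, Prod.mk.injEq, OfNat.ofNat_ne_zero, OfNat.zero_ne_ofNat, OfNat.one_ne_ofNat,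
      OfNat.ofNat_ne_one, zero_ne_one, one_ne_zero, Nat.reduceEqDiff, false_and, true_and,
      and_true] at h
  · obtain ⟨h1, h2⟩ := h
    rw [Fin.ext h1, h2]
  · obtain ⟨h1, h2, h3, h4⟩ := h
    rw [Fin.ext h1, h2, h3, h4]
  · rw [Fin.ext h]
  · rw [Fin.ext h]

/-- Adjacency of kinds `0` and `0`. -/
def rXX (S : List (ℕ × ℕ)) (a b : Lab) : Bool :=
  decide ((a.2.1, b.2.1) ∈ S) && decide (b.2.2.2.1 = a.2.2.2.1)

/-- Adjacency of kinds `1` and `0`. -/
def rTX (g : Bool) (a b : Lab) : Bool :=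
  (decide (b.2.1 = 3 * a.2.1) && decide (b.2.2.2.1 = a.2.2.2.1)) ||
  ((decide (b.2.1 = 3 * a.2.1 + 1) && decide (b.2.2.2.1 = a.2.2.2.2)) ||
  (decide (b.2.1 = 3 * a.2.1 + 2) &&
    decide (b.2.2.2.1 = !(decide ((!(decide (a.2.2.2.1 = a.2.2.2.2))) = (g && a.2.2.1))))))

/-- The adjacencies of labels, in one direction. -/
def rl (K : ℕ) (S : List (ℕ × ℕ)) (g : Bool) (a b : Lab) : Bool :=
  bif decide (a.1 = 0) && decide (b.1 = 0) then rXX S a b
  else bif decide (a.1 = 1) && decide (b.1 = 0) then rTX g a b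
  else bif decide (a.1 = 2) && decide (b.1 = 2) then decide (b.2.1 = a.2.1 + 1)
  else bif decide (a.1 = 2) && decide (b.1 = 3) then
    decide (b.2.1 = a.2.1) || (decide (a.2.1 = 0) && decide (b.2.1 = K))
  else bif decide (a.1 = 2) && decide (b.1 = 0) then decide (a.2.1 = 4 * b.2.1)
  else bif decide (a.1 = 2) && decide (b.1 = 1) then
    decide (a.2.1 = 12 * b.2.1 + (1 + (bif b.2.2.1 then 1 else 0)))
  else false

theorem xor_eq (a b : Bool) : (!(decide (a = b))) = xor a b := by cases a <;> cases b <;> rfl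

theorem rl_lab {nm : Fin (3 * M) → ℕ} {S : List (ℕ × ℕ)}
    (hS : ∀ o o' : Fin (3 * M), (o.1, o'.1) ∈ S ↔ Nxt nm o o') (g : Bool) (u v : Vx M K) :
    rl K S g (lab u) (lab v) = true ↔ R nm g u v := by
  rcases u with ⟨o, a⟩ | ⟨e, k, a, b⟩ | j | j <;>
    rcases v with ⟨o', a'⟩ | ⟨e', k', a', b'⟩ | j' | j'
  · show rXX S _ _ = true ↔ _
    simp only [rXX, Bool.or_eq_true, Bool.and_eq_true, decide_eq_true_eq]
    simp only [lab, hS, R]
  · exact ⟨fun h => Bool.noConfusion h, fun h => h.elim⟩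
  · exact ⟨fun h => Bool.noConfusion h, fun h => h.elim⟩
  · exact ⟨fun h => Bool.noConfusion h, fun h => h.elim⟩
  · show rTX g _ _ = true ↔ _
    simp only [rTX, xor_eq, Bool.or_eq_true, Bool.and_eq_true, decide_eq_true_eq]
    simp only [lab, R]
  · exact ⟨fun h => Bool.noConfusion h, fun h => h.elim⟩
  · exact ⟨fun h => Bool.noConfusion h, fun h => h.elim⟩
  · exact ⟨fun h => Bool.noConfusion h, fun h => h.elim⟩
  · exact decide_eq_true_iff
  · show decide (j.1 = 12 * e'.1 + (1 + (bif k' then 1 else 0))) = true ↔ j.1 = _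
    rw [decide_eq_true_iff]
    cases k' <;> rfl
  · exact decide_eq_true_iff
  · show (decide (j'.1 = j.1) || (decide (j.1 = 0) && decide (j'.1 = K))) = true ↔ _
    simp only [Bool.or_eq_true, Bool.and_eq_true, decide_eq_true_eq, R]
  all_goals exact ⟨fun h => Bool.noConfusion h, fun h => h.elim⟩

/-- Adjacency of labels. -/
def ad (K : ℕ) (S : List (ℕ × ℕ)) (g : Bool) (a b : Lab) : Bool :=
  !(decide (a = b)) && (rl K S g a b || rl K S g b a)

theorem ad_symm (K : ℕ) (S : List (ℕ × ℕ)) (g : Bool) (a b : Lab) :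
    ad K S g a b = ad K S g b a := by
  unfold ad
  rw [Bool.or_comm, decide_eq_decide.2 (eq_comm (a := a) (b := b))]

theorem ad_irrefl (K : ℕ) (S : List (ℕ × ℕ)) (g : Bool) (a : Lab) : ad K S g a a = false := by
  unfold ad
  rw [decide_eq_true rfl]
  rfl

theorem ad_lab {nm : Fin (3 * M) → ℕ} {S : List (ℕ × ℕ)}
    (hS : ∀ o o' : Fin (3 * M), (o.1, o'.1) ∈ S ↔ Nxt nm o o') (g : Bool) (u v : Vx M K) :
    ad K S g (lab u) (lab v) = true ↔ Ad nm g u v := by
  unfold ad Ad
  rw [Bool.and_eq_true, Bool.or_eq_true, rl_lab hS, rl_lab hS]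
  constructor
  · exact fun h => h.2
  · intro h
    refine ⟨?_, h⟩
    have hne : u ≠ v := by
      rintro rfl
      exact not_R_self nm _ u (h.elim id id)
    have : lab u ≠ lab v := fun h => hne (lab_injective h)
    rw [decide_eq_false this]
    rfl

/-! ## The graphs of a formula -/

/-- The name of a copy. -/
def nmL (φ : List (ℕ × ℕ × ℕ)) (o : ℕ) : ℕ :=
  bif decide (o % 3 = 0) then (φ.getD (o / 3) (0, 0, 0)).1 else
    bif decide (o % 3 = 1) then (φ.getD (o / 3) (0, 0, 0)).2.1 else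
      (φ.getD (o / 3) (0, 0, 0)).2.2

/-- The pairs of consecutive copies. -/
def SL (φ : List (ℕ × ℕ × ℕ)) : List (ℕ × ℕ) :=
  ((List.range (3 * φ.length)) ×ˢ (List.range (3 * φ.length))).filter fun p =>
    decide (nmL φ p.1 = nmL φ p.2) && (decide (p.1 < p.2) &&
      (List.range (3 * φ.length)).all fun k =>
        !(decide (p.1 < k) && (decide (k < p.2) && decide (nmL φ k = nmL φ p.1))))

/-- The name of a copy, typed. -/
def nmF (φ : List (ℕ × ℕ × ℕ)) (o : Fin (3 * φ.length)) : ℕ := nmL φ o.1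

theorem mem_SL (φ : List (ℕ × ℕ × ℕ)) (o o' : Fin (3 * φ.length)) :
    (o.1, o'.1) ∈ SL φ ↔ Nxt (nmF φ) o o' := by
  unfold SL Nxt nmF
  rw [List.mem_filter, List.mem_product]
  simp only [List.mem_range, o.2, o'.2, and_self, true_and, Bool.and_eq_true, decide_eq_true_eq,
    List.all_eq_true, Bool.not_eq_true', Bool.and_eq_false_iff, decide_eq_false_iff_not]
  refine and_congr Iff.rfl (and_congr Iff.rfl ?_)
  constructor
  · intro h k h1 h2 h3
    rcases h k.1 k.2 with h | h | h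
    · exact h h1
    · exact h h2
    · exact h h3
  · intro h k hk
    by_cases h1 : o.1 < k
    · by_cases h2 : k < o'.1
      · exact Or.inr (Or.inr (h ⟨k, hk⟩ h1 h2))
      · exact Or.inr (Or.inl h2)
    · exact Or.inl h1

/-- The truth values. -/
def bl : List Bool := [false, true]

/-- The labels of kind `0`. -/
def v0 (M : ℕ) : List Lab :=
  ((List.range (3 * M)) ×ˢ bl).map fun p => (0, p.1, false, p.2, false)

/-- The labels of kind `1`. -/
def v1 (M : ℕ) : List Lab :=
  ((List.range M) ×ˢ (bl ×ˢ (bl ×ˢ bl))).map fun p => (1, p.1, p.2.1, p.2.2.1, p.2.2.2)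

/-- The labels of kind `2`. -/
def v2 (K : ℕ) : List Lab := (List.range K).map fun j => (2, j, false, false, false)

/-- The labels of kind `3`. -/
def v3 (K : ℕ) : List Lab := (List.range (K + 1)).map fun j => (3, j, false, false, false)

/-- All labels. -/
def vl (M K : ℕ) : List Lab := v0 M ++ (v1 M ++ (v2 K ++ v3 K))

theorem nodup_bl : bl.Nodup := by decide

theorem mem_bl (a : Bool) : a ∈ bl := by cases a <;> decide

theorem nodup_vl (M K : ℕ) : (vl M K).Nodup := by
  have n0 : (v0 M).Nodup := List.Nodup.map (fun a b h => by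
    simp only [Prod.mk.injEq, and_true, true_and] at h
    exact Prod.ext h.1 h.2)
    (List.nodup_range.product nodup_bl)
  have n1 : (v1 M).Nodup := List.Nodup.map (fun a b h => by
    simp only [Prod.mk.injEq, true_and] at h
    exact Prod.ext h.1 (Prod.ext h.2.1 (Prod.ext h.2.2.1 h.2.2.2)))
    (List.nodup_range.product (nodup_bl.product (nodup_bl.product nodup_bl)))
  have n2 : (v2 K).Nodup := List.Nodup.map (fun a b h => by
    simp only [Prod.mk.injEq, and_true, true_and] at h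
    exact h) List.nodup_range
  have n3 : (v3 K).Nodup := List.Nodup.map (fun a b h => by
    simp only [Prod.mk.injEq, and_true, true_and] at h
    exact h) List.nodup_range
  have k0 : ∀ z ∈ v0 M, z.1 = 0 := by
    intro z hz; obtain ⟨p, -, rfl⟩ := List.mem_map.1 hz; rfl
  have k1 : ∀ z ∈ v1 M, z.1 = 1 := by
    intro z hz; obtain ⟨p, -, rfl⟩ := List.mem_map.1 hz; rfl
  have k2 : ∀ z ∈ v2 K, z.1 = 2 := by
    intro z hz; obtain ⟨p, -, rfl⟩ := List.mem_map.1 hz; rfl
  have k3 : ∀ z ∈ v3 K, z.1 = 3 := by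
    intro z hz; obtain ⟨p, -, rfl⟩ := List.mem_map.1 hz; rfl
  unfold vl
  refine n0.append (n1.append (n2.append n3 ?_) ?_) ?_
  · intro z h h'
    have := k2 z h; have := k3 z h'; omega
  · intro z h h'
    have := k1 z h
    rcases List.mem_append.1 h' with h' | h'
    · have := k2 z h'; omega
    · have := k3 z h'; omega
  · intro z h h'
    have := k0 z h
    rcases List.mem_append.1 h' with h' | h'
    · have := k1 z h'; omega
    rcases List.mem_append.1 h' with h' | h'
    · have := k2 z h'; omega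
    · have := k3 z h'; omega

theorem mem_vl {M K : ℕ} (z : Lab) : z ∈ vl M K ↔ ∃ x : Vx M K, lab x = z := by
  unfold vl
  simp only [List.mem_append]
  constructor
  · rintro (h | h | h | h)
    · obtain ⟨⟨o, a⟩, hp, rfl⟩ := List.mem_map.1 h
      simp only [List.mem_product, List.mem_range] at hp
      exact ⟨.X ⟨o, hp.1⟩ a, rfl⟩
    · obtain ⟨⟨e, k, a, b⟩, hp, rfl⟩ := List.mem_map.1 h
      simp only [List.mem_product, List.mem_range] at hp
      exact ⟨.T ⟨e, hp.1⟩ k a b, rfl⟩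
    · obtain ⟨j, hj, rfl⟩ := List.mem_map.1 h
      exact ⟨.P ⟨j, List.mem_range.1 hj⟩, rfl⟩
    · obtain ⟨j, hj, rfl⟩ := List.mem_map.1 h
      exact ⟨.Q ⟨j, List.mem_range.1 hj⟩, rfl⟩
  · rintro ⟨x, rfl⟩
    rcases x with ⟨o, a⟩ | ⟨e, k, a, b⟩ | j | j
    · refine Or.inl (List.mem_map.2 ⟨(o.1, a), ?_, rfl⟩)
      simp only [List.mem_product, List.mem_range]
      exact ⟨o.2, mem_bl a⟩
    · refine Or.inr (Or.inl (List.mem_map.2 ⟨(e.1, k, a, b), ?_, rfl⟩))
      simp only [List.mem_product, List.mem_range]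
      exact ⟨e.2, mem_bl k, mem_bl a, mem_bl b⟩
    · exact Or.inr (Or.inr (Or.inl (List.mem_map.2 ⟨j.1, List.mem_range.2 j.2, rfl⟩)))
    · exact Or.inr (Or.inr (Or.inr (List.mem_map.2 ⟨j.1, List.mem_range.2 j.2, rfl⟩)))

/-- The number of the vertices of the path. -/
def KK (φ : List (ℕ × ℕ × ℕ)) : ℕ := 12 * φ.length + 2

/-- One of the two graphs. -/
def gr (φ : List (ℕ × ℕ × ℕ)) (g : Bool) : SimpleGraph (Fin (vl φ.length (KK φ)).length) :=
  listGraph (vl φ.length (KK φ)) (ad (KK φ) (SL φ) g) (ad_symm (KK φ) (SL φ) g)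
    (ad_irrefl (KK φ) (SL φ) g)

/-- One of the two matrices. -/
def mtr (φ : List (ℕ × ℕ × ℕ)) (g : Bool) : List (List Bool) :=
  (vl φ.length (KK φ)).map fun u => (vl φ.length (KK φ)).map fun w => ad (KK φ) (SL φ) g u w

theorem adjMatrix_gr (φ : List (ℕ × ℕ × ℕ)) (g : Bool) : adjMatrix (gr φ g) = mtr φ g :=
  adjMatrix_listGraph _ _ _ _

/-- The graphs are those of the gadget. -/
theorem exists_equiv_gr (φ : List (ℕ × ℕ × ℕ)) :
    ∃ e : Fin (vl φ.length (KK φ)).length ≃ Vx φ.length (KK φ), ∀ (g : Bool) i j,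
      (gr φ g).Adj i j ↔ Ad (nmF φ) g (e i) (e j) := by
  obtain ⟨e, he⟩ := exists_equiv (vl φ.length (KK φ)) (nodup_vl _ _)
    (lab (M := φ.length) (K := KK φ)) lab_injective mem_vl
  refine ⟨e, fun g i j => ?_⟩
  rw [← ad_lab (mem_SL φ), he, he]
  rfl

theorem gr_degree (φ : List (ℕ × ℕ × ℕ)) (g : Bool) (i) :
    ((gr φ g).neighborSet i).ncard ≤ 7 := by
  obtain ⟨e, he⟩ := exists_equiv_gr φ
  refine le_trans ?_ (degree_le (nmF φ) g (e i))
  have : Finite (Vx φ.length (KK φ)) := Finite.of_equiv _ e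
  refine Set.ncard_le_ncard_of_injOn e ?_ e.injective.injOn (Set.toFinite _)
  intro j hj
  exact (he g i j).1 hj

end Pool.Agent.R892.Half
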