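import Pool.Agent.R892.Half.Gadget
import Pool.Agent.H958R2.NLT.X13Defs

/-!
# Half-integral isomorphisms: the equivalence
-/

set_option autoImplicit false
set_option linter.unusedSectionVars false

namespace Pool.Agent.R892.Half

open Pool.Agent.H958R2

variable {M K : ℕ}

/-- The blocks of a clause. -/
def oc (e : Fin M) (i : Fin 3) : Fin (3 * M) := ⟨3 * e.1 + i.1, by omega⟩

/-- Coordinates. -/
def co (t : Bool) (i : Fin 3) (a b : Bool) : Bool :=
  if i = 0 then a else if i = 1 then b else xor (xor a b) t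

theorem exists_oc (o : Fin (3 * M)) : ∃ (e : Fin M) (i : Fin 3), oc e i = o :=
  ⟨⟨o.1 / 3, by omega⟩, ⟨o.1 % 3, by omega⟩, Fin.ext (by simp only [oc]; omega)⟩

theorem oc_inj {e e' : Fin M} {i i' : Fin 3} (h : oc e i = oc e' i') : e = e' ∧ i = i' := by
  have := congrArg Fin.val h
  simp only [oc] at this
  exact ⟨Fin.ext (by omega), Fin.ext (by omega)⟩

theorem ad_XT (nm : Fin (3 * M) → ℕ) (g : Bool) (e e' : Fin M) (i : Fin 3) (k a b c : Bool) :
    Ad nm g (.X (oc e i) c : Vx M K) (.T e' k a b) ↔ e = e' ∧ c = co (g && k) i a b := by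
  have h1 : Ad nm g (.X (oc e i) c : Vx M K) (.T e' k a b) ↔
      ((3 * e.1 + i.1 = 3 * e'.1 ∧ c = a) ∨ (3 * e.1 + i.1 = 3 * e'.1 + 1 ∧ c = b) ∨
      (3 * e.1 + i.1 = 3 * e'.1 + 2 ∧ c = xor (xor a b) (g && k))) :=
    ⟨fun h => h.elim (fun h => h.elim) id, fun h => Or.inr h⟩
  rw [h1, Fin.ext_iff]
  fin_cases i
  · simp only [co]
    constructor
    · rintro (h | h | h)
      · exact ⟨by have := h.1; omega, h.2⟩
      · have := h.1; omega
      · have := h.1; omega
    · rintro ⟨h, h'⟩
      exact Or.inl ⟨by simp; omega, h'⟩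
  · simp only [co]
    constructor
    · rintro (h | h | h)
      · have := h.1; omega
      · exact ⟨by have := h.1; omega, h.2⟩
      · have := h.1; omega
    · rintro ⟨h, h'⟩
      exact Or.inr (Or.inl ⟨by simp; omega, h'⟩)
  · simp only [co]
    constructor
    · rintro (h | h | h)
      · have := h.1; omega
      · have := h.1; omega
      · exact ⟨by have := h.1; omega, h.2⟩
    · rintro ⟨h, h'⟩
      exact Or.inr (Or.inr ⟨by simp; omega, h'⟩)

theorem ad_TX (nm : Fin (3 * M) → ℕ) (g : Bool) (e e' : Fin M) (i : Fin 3) (k a b c : Bool) :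
    Ad nm g (.T e' k a b) (.X (oc e i) c : Vx M K) ↔ e = e' ∧ c = co (g && k) i a b :=
  ⟨fun h => (ad_XT nm g e e' i k a b c).1 h.symm, fun h => ((ad_XT nm g e e' i k a b c).2 h).symm⟩

theorem ad_XX (nm : Fin (3 * M) → ℕ) (g : Bool) (o o' : Fin (3 * M)) (a a' : Bool) :
    Ad nm g (.X o a : Vx M K) (.X o' a') ↔ (Nxt nm o o' ∨ Nxt nm o' o) ∧ a = a' := by
  constructor
  · rintro (h | h)
    · exact ⟨Or.inl h.1, h.2.symm⟩
    · exact ⟨Or.inr h.1, h.2⟩
  · rintro ⟨h | h, h'⟩
    · exact Or.inl ⟨h, h'.symm⟩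
    · exact Or.inr ⟨h, h'⟩

/-! ## Forward -/

section Forward

variable {nm : Fin (3 * M) → ℕ} {g g' : Bool} {D : ℕ} {N : Vx M K → Vx M K → ℕ}

theorem row_X (hK : K = 12 * M + 2) (h : Sol D (Ad nm g) (Ad nm g') N) (o : Fin (3 * M))
    (a : Bool) : N (.X o a) (.X o false) + N (.X o a) (.X o true) = D := by
  rw [← h.1 (.X o a), sum_X o]
  intro w hw
  by_contra hn
  exact hw ((cpt_X hK h o _ _ hn).1 rfl)

theorem col_X (hK : K = 12 * M + 2) (h : Sol D (Ad nm g) (Ad nm g') N) (o : Fin (3 * M))
    (a : Bool) : N (.X o false) (.X o a) + N (.X o true) (.X o a) = D := by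
  rw [← h.2.1 (.X o a), sum_X (f := fun u => N u (.X o a)) o]
  intro w hw
  by_contra hn
  exact hw ((cpt_X hK h o _ _ hn).2 rfl)

theorem chain_X (hK : K = 12 * M + 2) (h : Sol D (Ad nm g) (Ad nm g') N) {o o' : Fin (3 * M)}
    (ho : Nxt nm o o') (a a' : Bool) :
    N (.X o a) (.X o a') = N (.X o' a) (.X o' a') := by
  classical
  have h3 := h.2.2 (.X o a) (.X o' a')
  rw [sum_X o', sum_X o] at h3
  · simp only [ad_XX] at h3
    simp only [ho, true_or, true_and] at h3
    cases a <;> cases a' <;> simp at h3 <;> exact h3.symm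
  · intro w hw
    have : N (.X o a) w = 0 := by
      by_contra hn
      exact hw ((cpt_X hK h o _ _ hn).1 rfl)
    rw [this]; simp
  · intro w hw
    have : N w (.X o' a') = 0 := by
      by_contra hn
      exact hw ((cpt_X hK h o' _ _ hn).2 rfl)
    rw [this]; simp

theorem rel_T (hK : K = 12 * M + 2) (h : Sol D (Ad nm g) (Ad nm g') N) (e : Fin M) (i : Fin 3)
    (k a b c : Bool) :
    (if c = co (g && k) i false false then N (.T e k false false) (.T e k a b) else 0) +
    ((if c = co (g && k) i false true then N (.T e k false true) (.T e k a b) else 0) +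
    ((if c = co (g && k) i true false then N (.T e k true false) (.T e k a b) else 0) +
    (if c = co (g && k) i true true then N (.T e k true true) (.T e k a b) else 0))) =
    N (.X (oc e i) c) (.X (oc e i) (co (g' && k) i a b)) := by
  classical
  have h3 := h.2.2 (.X (oc e i) c) (.T e k a b)
  rw [sum_T e k, sum_X (oc e i)] at h3
  · simp only [ad_XT, true_and] at h3
    rw [h3]
    cases co (g' && k) i a b <;> simp
  · intro w hw
    have : N (.X (oc e i) c) w = 0 := by
      by_contra hn
      exact hw ((cpt_X hK h (oc e i) _ _ hn).1 rfl)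
    rw [this]; simp
  · intro w hw
    have : N w (.T e k a b) = 0 := by
      by_contra hn
      exact hw ((cpt_T hK h e k _ _ hn).2 ⟨rfl, rfl⟩)
    rw [this]; simp

theorem three (hK : K = 12 * M + 2) (h : Sol 2 (Ad nm false) (Ad nm true) N) (e : Fin M) :
    one3 (decide (N (.X (oc e 0) false) (.X (oc e 0) true) ≠ 1))
      (decide (N (.X (oc e 1) false) (.X (oc e 1) true) ≠ 1))
      (decide (N (.X (oc e 2) false) (.X (oc e 2) true) ≠ 1)) = true := by
  have r := fun i => row_X hK h (oc e i)
  have c := fun i => col_X hK h (oc e i)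
  have t := fun i k c => rel_T hK h e i k false false c
  have r00 := r 0 false
  have r01 := r 0 true
  have r10 := r 1 false
  have r11 := r 1 true
  have r20 := r 2 false
  have r21 := r 2 true
  have c00 := c 0 false
  have c01 := c 0 true
  have c10 := c 1 false
  have c11 := c 1 true
  have c20 := c 2 false
  have c21 := c 2 true
  have t000 := t 0 false false
  have t001 := t 0 false true
  have t100 := t 1 false false
  have t101 := t 1 false true
  have t200 := t 2 false false
  have t201 := t 2 false true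
  have t010 := t 0 true false
  have t011 := t 0 true true
  have t110 := t 1 true false
  have t111 := t 1 true true
  have t210 := t 2 true false
  have t211 := t 2 true true
  clear r c t
  simp [co] at t000 t001 t100 t101 t200 t201 t010 t011 t110 t111 t210 t211
  have key : (N (.X (oc e 0) false) (.X (oc e 0) true) ≠ 1 ∧
      N (.X (oc e 1) false) (.X (oc e 1) true) = 1 ∧
      N (.X (oc e 2) false) (.X (oc e 2) true) = 1) ∨
      (N (.X (oc e 0) false) (.X (oc e 0) true) = 1 ∧
      N (.X (oc e 1) false) (.X (oc e 1) true) ≠ 1 ∧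
      N (.X (oc e 2) false) (.X (oc e 2) true) = 1) ∨
      (N (.X (oc e 0) false) (.X (oc e 0) true) = 1 ∧
      N (.X (oc e 1) false) (.X (oc e 1) true) = 1 ∧
      N (.X (oc e 2) false) (.X (oc e 2) true) ≠ 1) := by omega
  rcases key with ⟨h1, h2, h3⟩ | ⟨h1, h2, h3⟩ | ⟨h1, h2, h3⟩ <;> simp [one3, h1, h2, h3]

end Forward

theorem nxt_all {F : Fin (3 * M) → ℕ} (nm : Fin (3 * M) → ℕ)
    (h : ∀ o o', Nxt nm o o' → F o = F o') : ∀ o o', nm o = nm o' → F o = F o' := by
  have key : ∀ n : ℕ, ∀ o o' : Fin (3 * M), o'.1 - o.1 = n → o < o' → nm o = nm o' →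
      F o = F o' := by
    intro n
    induction n using Nat.strong_induction_on with
    | _ n ih =>
      intro o o' hn hlt hnm
      by_cases hN : Nxt nm o o'
      · exact h _ _ hN
      · have : ∃ k, o < k ∧ k < o' ∧ nm k = nm o := by
          by_contra hc
          apply hN
          refine ⟨hnm, hlt, fun k h1 h2 h3 => hc ⟨k, h1, h2, h3⟩⟩
        obtain ⟨k, h1, h2, h3⟩ := this
        rw [Fin.lt_def] at h1 h2 hlt
        exact (ih (k.1 - o.1) (by omega) o k rfl h1 h3.symm).trans
          (ih (o'.1 - k.1) (by omega) k o' rfl h2 (h3.trans hnm))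
  intro o o' hnm
  rcases lt_trichotomy o o' with hlt | rfl | hlt
  · exact key _ _ _ rfl hlt hnm
  · rfl
  · exact (key _ _ _ rfl hlt hnm.symm).symm

theorem forward (hK : K = 12 * M + 2) {nm : Fin (3 * M) → ℕ} {N : Vx M K → Vx M K → ℕ}
    (h : Sol 2 (Ad nm false) (Ad nm true) N) :
    ∃ τ : ℕ → Bool, ∀ e : Fin M,
      one3 (τ (nm (oc e 0))) (τ (nm (oc e 1))) (τ (nm (oc e 2))) = true := by
  classical
  have hF := nxt_all (F := fun o => N (.X o false) (.X o true)) nm
    fun o o' ho => chain_X hK h ho false true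
  refine ⟨fun n => decide (∃ o, nm o = n ∧ N (.X o false) (.X o true) ≠ 1), fun e => ?_⟩
  have key : ∀ o : Fin (3 * M), decide (∃ o', nm o' = nm o ∧ N (.X o' false) (.X o' true) ≠ 1) =
      decide (N (.X o false) (.X o true) ≠ 1) := by
    intro o
    rw [decide_eq_decide]
    constructor
    · rintro ⟨o', h1, h2⟩
      rw [← hF o' o h1]
      exact h2
    · exact fun h => ⟨o, rfl, h⟩
  simp only [key]
  exact three hK h e

end Pool.Agent.R892.Half
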