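import Pool.Agent.R892.Half.Defs
import Pool.Agent.R892.Half.Frac
import Pool.Agent.R892.Ord.Mem

/-!
# Fractional isomorphisms with bounded denominators: the problem is in NP
-/

set_option autoImplicit false
set_option linter.unusedSectionVars false

namespace Pool.Agent.R892.Half

variable {V W : Type} [Fintype V] [Fintype W]

theorem fracIso_iff {D : ℕ} (hD : D ≠ 0) (G H : SimpleGraph V) :
    FracIso D G H ↔ ∃ N : V → V → ℕ, Sol D G.Adj H.Adj N := by
  classical
  have hD' : (D : ℚ) ≠ 0 := by exact_mod_cast hD
  have e1 : ∀ (X : Matrix V V ℚ) (u v : V), (G.adjMatrix ℚ * X) u v =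
      ∑ w, (if G.Adj u w then X w v else 0) := by
    intro X u v
    rw [Matrix.mul_apply]
    refine Finset.sum_congr rfl fun w _ => ?_
    rw [SimpleGraph.adjMatrix_apply]
    split <;> simp
  have e2 : ∀ (X : Matrix V V ℚ) (u v : V), (X * H.adjMatrix ℚ) u v =
      ∑ w, (if H.Adj w v then X u w else 0) := by
    intro X u v
    rw [Matrix.mul_apply]
    refine Finset.sum_congr rfl fun w _ => ?_
    rw [SimpleGraph.adjMatrix_apply]
    split <;> simp
  unfold FracIso
  constructor
  · rintro ⟨X, hX, hN, hc⟩
    choose N hN using hN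
    rw [mem_doublyStochastic_iff_sum] at hX
    obtain ⟨-, h1, h2⟩ := hX
    refine ⟨N, fun u => ?_, fun v => ?_, fun u v => ?_⟩
    · have := h1 u
      simp only [hN] at this
      rw [← Finset.sum_div, div_eq_iff hD', one_mul] at this
      exact_mod_cast this
    · have := h2 v
      simp only [hN] at this
      rw [← Finset.sum_div, div_eq_iff hD', one_mul] at this
      exact_mod_cast this
    · have := congrFun (congrFun hc u) v
      rw [e1, e2] at this
      simp only [hN] at this
      have f1 : ∀ w, (if G.Adj u w then ((N w v : ℕ) : ℚ) / D else 0) =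
          ((if G.Adj u w then N w v else 0 : ℕ) : ℚ) / D := fun w => by split <;> simp
      have f2 : ∀ w, (if H.Adj w v then ((N u w : ℕ) : ℚ) / D else 0) =
          ((if H.Adj w v then N u w else 0 : ℕ) : ℚ) / D := fun w => by split <;> simp
      simp only [f1, f2] at this
      rw [← Finset.sum_div, ← Finset.sum_div, div_left_inj' hD'] at this
      convert (show ∑ w, (if G.Adj u w then N w v else 0) = ∑ w, (if H.Adj w v then N u w else 0)
        from by exact_mod_cast this)
  · rintro ⟨N, h1, h2, h3⟩
    refine ⟨Matrix.of fun u v => (N u v : ℚ) / D, ?_, fun u v => ⟨N u v, rfl⟩, ?_⟩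
    · rw [mem_doublyStochastic_iff_sum]
      simp only [Matrix.of_apply]
      refine ⟨fun u v => by positivity, fun u => ?_, fun v => ?_⟩
      · rw [← Finset.sum_div, div_eq_iff hD', one_mul]
        have := h1 u
        exact_mod_cast this
      · rw [← Finset.sum_div, div_eq_iff hD', one_mul]
        have := h2 v
        exact_mod_cast this
    · ext u v
      rw [e1, e2]
      simp only [Matrix.of_apply]
      have f1 : ∀ w, (if G.Adj u w then ((N w v : ℕ) : ℚ) / D else 0) =
          ((if G.Adj u w then N w v else 0 : ℕ) : ℚ) / D := fun w => by split <;> simp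
      have f2 : ∀ w, (if H.Adj w v then ((N u w : ℕ) : ℚ) / D else 0) =
          ((if H.Adj w v then N u w else 0 : ℕ) : ℚ) / D := fun w => by split <;> simp
      simp only [f1, f2]
      rw [← Finset.sum_div, ← Finset.sum_div, div_left_inj' hD']
      have h4 : ∑ w, (if G.Adj u w then N w v else 0) = ∑ w, (if H.Adj w v then N u w else 0) := by
        convert h3 u v
      exact_mod_cast h4

theorem sol_transfer {D : ℕ} {A B : V → V → Prop} {A' B' : W → W → Prop} (e : V ≃ W)
    (hA : ∀ u v, A u v ↔ A' (e u) (e v)) (hB : ∀ u v, B u v ↔ B' (e u) (e v)) :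
    (∃ N, Sol D A B N) ↔ ∃ N, Sol D A' B' N := by
  classical
  constructor
  · rintro ⟨N, h1, h2, h3⟩
    refine ⟨fun u v => N (e.symm u) (e.symm v), fun u => ?_, fun v => ?_, fun u v => ?_⟩
    · rw [← h1 (e.symm u)]
      exact Fintype.sum_equiv e.symm _ _ fun _ => rfl
    · rw [← h2 (e.symm v)]
      exact Fintype.sum_equiv e.symm _ _ fun _ => rfl
    · have := h3 (e.symm u) (e.symm v)
      have f1 : ∑ w, (if A' u w then N (e.symm w) (e.symm v) else 0) =
          ∑ w, (if A (e.symm u) w then N w (e.symm v) else 0) := by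
        refine Fintype.sum_equiv e.symm _ _ fun w => ?_
        have := hA (e.symm u) (e.symm w)
        simp only [Equiv.apply_symm_apply] at this
        simp only [this]
      have f2 : ∑ w, (if B' w v then N (e.symm u) (e.symm w) else 0) =
          ∑ w, (if B w (e.symm v) then N (e.symm u) w else 0) := by
        refine Fintype.sum_equiv e.symm _ _ fun w => ?_
        have := hB (e.symm w) (e.symm v)
        simp only [Equiv.apply_symm_apply] at this
        simp only [this]
      rw [f1, f2]
      exact this
  · rintro ⟨N, h1, h2, h3⟩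
    refine ⟨fun u v => N (e u) (e v), fun u => ?_, fun v => ?_, fun u v => ?_⟩
    · rw [← h1 (e u)]
      exact Fintype.sum_equiv e _ _ fun _ => rfl
    · rw [← h2 (e v)]
      exact Fintype.sum_equiv e _ _ fun _ => rfl
    · have := h3 (e u) (e v)
      have f1 : ∑ w, (if A u w then N (e w) (e v) else 0) =
          ∑ w, (if A' (e u) w then N w (e v) else 0) := by
        refine Fintype.sum_equiv e _ _ fun w => ?_
        simp only [hA u w]
      have f2 : ∑ w, (if B w v then N (e u) (e w) else 0) =
          ∑ w, (if B' w (e v) then N (e u) w else 0) := by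
        refine Fintype.sum_equiv e _ _ fun w => ?_
        simp only [hB w v]
      rw [f1, f2]
      exact this

/-- The conditions of the verifier. -/
def Cond (D : ℕ) (I : List (List Bool) × List (List Bool)) (N : ℕ → ℕ → ℕ) : Prop :=
  (∀ i < I.1.length, ((List.range I.1.length).map fun j => N i j).sum = D) ∧
  (∀ j < I.1.length, ((List.range I.1.length).map fun i => N i j).sum = D) ∧
  ∀ i < I.1.length, ∀ j < I.1.length,
    ((List.range I.1.length).map fun k => bif NPC.R892.ent I.1 i k then N k j else 0).sum =
    ((List.range I.1.length).map fun k => bif NPC.R892.ent I.2 k j then N i k else 0).sum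

theorem sum_range_map (n : ℕ) (f : ℕ → ℕ) : ((List.range n).map f).sum = ∑ i : Fin n, f i := by
  rw [← Finset.sum_range (f := f) (n := n)]
  rfl

theorem prob_iff {D : ℕ} (hD : D ≠ 0) (I : List (List Bool) × List (List Bool)) :
    FracIsoProblem D I ↔ NPC.R892.IsAdj I.1 ∧ NPC.R892.IsAdj I.2 ∧ I.1.length = I.2.length ∧
      ∃ N : ℕ → ℕ → ℕ, Cond D I N := by
  classical
  constructor
  · rintro ⟨n, G, H, h1, h2, h⟩
    rw [fracIso_iff hD] at h
    obtain ⟨N, h3, h4, h5⟩ := h
    rw [← h1, ← h2, NPC.R892.length_adjMatrix, NPC.R892.length_adjMatrix]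
    refine ⟨NPC.R892.isAdj_adjMatrix _, NPC.R892.isAdj_adjMatrix _, rfl,
      fun i j => if h : i < n ∧ j < n then N ⟨i, h.1⟩ ⟨j, h.2⟩ else 0, ?_, ?_, ?_⟩
    · intro i hi
      rw [← h1, NPC.R892.length_adjMatrix] at *
      rw [sum_range_map, ← h3 ⟨i, hi⟩]
      refine Finset.sum_congr rfl fun j _ => ?_
      exact dif_pos (c := i < n ∧ j.1 < n) ⟨hi, j.2⟩
    · intro j hj
      rw [← h1, NPC.R892.length_adjMatrix] at *
      rw [sum_range_map, ← h4 ⟨j, hj⟩]
      refine Finset.sum_congr rfl fun i _ => ?_
      exact dif_pos (c := i.1 < n ∧ j < n) ⟨i.2, hj⟩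
    · intro i hi j hj
      rw [← h1, ← h2, NPC.R892.length_adjMatrix] at *
      rw [sum_range_map, sum_range_map]
      have := h5 ⟨i, hi⟩ ⟨j, hj⟩
      refine (Finset.sum_congr rfl fun k _ => ?_).trans (this.trans
        (Finset.sum_congr rfl fun k _ => ?_))
      · have e := NPC.R892.ent_adjMatrix G ⟨i, hi⟩ k
        by_cases ha : G.Adj ⟨i, hi⟩ k
        · rw [if_pos ha, e.2 ha, cond_true]
          exact dif_pos (c := k.1 < n ∧ j < n) ⟨k.2, hj⟩
        · rw [if_neg ha, (Bool.not_eq_true _).mp fun h => ha (e.1 h), cond_false]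
      · have e := NPC.R892.ent_adjMatrix H k ⟨j, hj⟩
        by_cases ha : H.Adj k ⟨j, hj⟩
        · rw [if_pos ha, e.2 ha, cond_true]
          symm
          exact dif_pos (c := i < n ∧ k.1 < n) ⟨hi, k.2⟩
        · rw [if_neg ha, (Bool.not_eq_true _).mp fun h => ha (e.1 h), cond_false]
  · rintro ⟨h1, h2, h3, N, h4, h5, h6⟩
    refine ⟨I.1.length, NPC.R892.matG I.1 _ h1 rfl, NPC.R892.matG I.2 _ h2 h3.symm,
      NPC.R892.adjMatrix_matG _ _ _ _, NPC.R892.adjMatrix_matG _ _ _ _, ?_⟩
    rw [fracIso_iff hD]
    refine ⟨fun i j => N i j, fun i => ?_, fun j => ?_, fun i j => ?_⟩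
    · rw [← h4 i i.2, sum_range_map]
    · rw [← h5 j j.2, sum_range_map]
    · have := h6 i i.2 j j.2
      rw [sum_range_map, sum_range_map] at this
      refine (Finset.sum_congr rfl fun k _ => ?_).trans (this.trans
        (Finset.sum_congr rfl fun k _ => ?_))
      · have e : (NPC.R892.matG I.1 I.1.length h1 rfl).Adj i k ↔ NPC.R892.ent I.1 i k = true :=
          Iff.rfl
        simp only [e]
        cases NPC.R892.ent I.1 i k <;> simp
      · have e : (NPC.R892.matG I.2 I.1.length h2 h3.symm).Adj k j ↔
          NPC.R892.ent I.2 k j = true := Iff.rfl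
        simp only [e]
        cases NPC.R892.ent I.2 k j <;> simp

end Pool.Agent.R892.Half

namespace Pool.Agent.NPC.R892

open Pool.Agent.R892.Half Pool.Agent.NPC.R671

/-- An entry of a matrix of numbers. -/
def entN (w : List (List ℕ)) (i j : ℕ) : ℕ := (w.getD i []).getD j 0

/-- The verifier. -/
def chkF (D : ℕ) (p : (List (List Bool) × List (List Bool)) × List (List ℕ)) : Bool :=
  isAdjB p.1.1 && (isAdjB p.1.2 && (decide (p.1.1.length = p.1.2.length) &&
  ((List.range p.1.1.length).all (fun i =>
    decide (((List.range p.1.1.length).map fun j => entN p.2 i j).sum = D)) &&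
  ((List.range p.1.1.length).all (fun j =>
    decide (((List.range p.1.1.length).map fun i => entN p.2 i j).sum = D)) &&
  (List.range p.1.1.length).all fun i => (List.range p.1.1.length).all fun j =>
    decide (((List.range p.1.1.length).map fun k => bif ent p.1.1 i k then entN p.2 k j else 0).sum =
    ((List.range p.1.1.length).map fun k => bif ent p.1.2 k j then entN p.2 i k else 0).sum)))))

theorem chkF_iff (D : ℕ) (I : List (List Bool) × List (List Bool)) (w : List (List ℕ)) :
    chkF D (I, w) = true ↔ IsAdj I.1 ∧ IsAdj I.2 ∧ I.1.length = I.2.length ∧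
      Cond D I (entN w) := by
  unfold chkF Cond
  simp only [Bool.and_eq_true, List.all_eq_true, decide_eq_true_eq, List.mem_range, isAdjB_iff]

variable {α : Type} [TEnc α]

theorem poly_entN {w : α → List (List ℕ)} {i j : α → ℕ} (hw : Poly w) (hi : Poly i)
    (hj : Poly j) : Poly (fun a => entN (w a) (i a) (j a)) := by
  unfold entN
  fun_prop

theorem poly_chkF (D : ℕ) : Poly (chkF D) := by
  unfold chkF
  have h : ∀ {α : Type} [TEnc α] {f : α → List (List Bool)}, Poly f →
      Poly (fun a => List.range (f a).length) := fun hf => Poly.range_length hf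
  refine Poly.and (poly_isAdjB.comp (Poly.fst (Poly.fst Poly.id))) (Poly.and
    (poly_isAdjB.comp (Poly.snd (Poly.fst Poly.id))) (Poly.and (by fun_prop)
      (Poly.and ?_ (Poly.and ?_ ?_))))
  · refine Poly.all (h (Poly.fst (Poly.fst Poly.id))) ?_
    refine Poly.dec_eq (Poly.sum ?_) (Poly.const _)
    refine Poly.map (F := fun (x : ((List (List Bool) × List (List Bool)) × List (List ℕ)) × ℕ) j =>
      entN x.1.2 x.2 j) (h (Poly.fst (Poly.fst (Poly.fst Poly.id)))) ?_
    exact poly_entN (by fun_prop) (by fun_prop) (by fun_prop)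
  · refine Poly.all (h (Poly.fst (Poly.fst Poly.id))) ?_
    refine Poly.dec_eq (Poly.sum ?_) (Poly.const _)
    refine Poly.map (F := fun (x : ((List (List Bool) × List (List Bool)) × List (List ℕ)) × ℕ) i =>
      entN x.1.2 i x.2) (h (Poly.fst (Poly.fst (Poly.fst Poly.id)))) ?_
    exact poly_entN (by fun_prop) (by fun_prop) (by fun_prop)
  · refine Poly.all (h (Poly.fst (Poly.fst Poly.id))) ?_
    refine Poly.all (h (Poly.fst (Poly.fst (Poly.fst Poly.id)))) ?_
    refine Poly.dec_eq (Poly.sum ?_) (Poly.sum ?_)
    · refine Poly.map (F := fun (x : (((List (List Bool) × List (List Bool)) ×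
        List (List ℕ)) × ℕ) × ℕ) k => bif ent x.1.1.1.1 x.1.2 k then entN x.1.1.2 k x.2 else 0)
        (h (Poly.fst (Poly.fst (Poly.fst (Poly.fst Poly.id))))) ?_
      exact Poly.cond (poly_ent (by fun_prop) (by fun_prop) (by fun_prop))
        (poly_entN (by fun_prop) (by fun_prop) (by fun_prop)) (Poly.const _)
    · refine Poly.map (F := fun (x : (((List (List Bool) × List (List Bool)) ×
        List (List ℕ)) × ℕ) × ℕ) k => bif ent x.1.1.1.2 k x.2 then entN x.1.1.2 x.1.2 k else 0)
        (h (Poly.fst (Poly.fst (Poly.fst (Poly.fst Poly.id))))) ?_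
      exact Poly.cond (poly_ent (by fun_prop) (by fun_prop) (by fun_prop))
        (poly_entN (by fun_prop) (by fun_prop) (by fun_prop)) (Poly.const _)

theorem inNPP_frac {D : ℕ} (hD : D ≠ 0) : InNPP (FracIsoProblem D) := by
  refine inNPP_of (β := List (List ℕ)) (poly_chkF D)
    (Polynomial.X * (Polynomial.X * (Polynomial.C (4 * D + 2)) + Polynomial.C 2) +
      Polynomial.C 1) ?_
  intro I
  rw [prob_iff hD]
  constructor
  · rintro ⟨h1, h2, h3, N, h4, h5, h6⟩
    have h7 : I.1.length ≤ sz I := by
      have e1 := length_lt_sz I.1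
      have e2 : sz I.1 ≤ sz I := by
        rcases I with ⟨a, b⟩
        simp only [sz_pair]
        omega
      omega
    have hle : ∀ i < I.1.length, ∀ j < I.1.length, N i j ≤ D := by
      intro i hi j hj
      rw [← h4 i hi]
      exact List.single_le_sum (fun _ _ => Nat.zero_le _) _ (List.mem_map.2
        ⟨j, List.mem_range.2 hj, rfl⟩)
    refine ⟨List.ofFn fun i : Fin I.1.length => List.ofFn fun j : Fin I.1.length => N i j, ?_, ?_⟩
    · have h8 : ∀ i : Fin I.1.length, sz (List.ofFn fun j : Fin I.1.length => N i j) ≤
          sz I * (4 * D + 2) + 1 := by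
        intro i
        have h9 : ∀ a ∈ List.ofFn (fun j : Fin I.1.length => N i j), sz a ≤ 4 * D + 1 := by
          intro a ha
          rw [List.mem_ofFn] at ha
          obtain ⟨j, rfl⟩ := ha
          have e3 := sz_nat_le (N i j)
          have e4 : Nat.size (N i j) ≤ N i j := by
            rw [Nat.size_le]
            exact Nat.lt_two_pow_self
          have e5 := hle i i.2 j j.2
          omega
        have h10 := sz_le_length_mul _ _ h9
        rw [List.length_ofFn] at h10
        refine h10.trans ?_
        gcongr
      have h11 : ∀ a ∈ List.ofFn (fun i : Fin I.1.length => List.ofFn fun j : Fin I.1.length =>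
          N i j), sz a ≤ sz I * (4 * D + 2) + 1 := by
        intro a ha
        rw [List.mem_ofFn] at ha
        obtain ⟨i, rfl⟩ := ha
        exact h8 i
      have h12 := sz_le_length_mul _ _ h11
      rw [List.length_ofFn] at h12
      simp only [Polynomial.eval_add, Polynomial.eval_mul, Polynomial.eval_X, Polynomial.eval_C]
      refine h12.trans ?_
      gcongr
    · have hget : ∀ i < I.1.length, ∀ j < I.1.length,
          entN (List.ofFn fun i : Fin I.1.length => List.ofFn fun j : Fin I.1.length => N i j) i j =
            N i j := by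
        intro i hi j hj
        unfold entN
        have e1 : (List.ofFn fun i : Fin I.1.length => List.ofFn fun j : Fin I.1.length =>
            N i j).getD i [] = List.ofFn fun j : Fin I.1.length => N i j := by
          rw [List.getD_eq_getElem _ _ (by simpa using hi)]
          simp
        rw [e1, List.getD_eq_getElem _ _ (by simpa using hj)]
        simp
      rw [chkF_iff]
      refine ⟨h1, h2, h3, fun i hi => ?_, fun j hj => ?_, fun i hi j hj => ?_⟩
      · rw [← h4 i hi]
        congr 1
        refine List.map_congr_left fun j hj => hget i hi j (List.mem_range.1 hj)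
      · rw [← h5 j hj]
        congr 1
        refine List.map_congr_left fun i hi => hget i (List.mem_range.1 hi) j hj
      · have e1 := h6 i hi j hj
        have e2 : ((List.range I.1.length).map fun k => bif ent I.1 i k then
            entN (List.ofFn fun i : Fin I.1.length => List.ofFn fun j : Fin I.1.length => N i j) k j
            else 0) = (List.range I.1.length).map fun k => bif ent I.1 i k then N k j else 0 :=
          List.map_congr_left fun k hk => by rw [hget k (List.mem_range.1 hk) j hj]
        have e3 : ((List.range I.1.length).map fun k => bif ent I.2 k j then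
            entN (List.ofFn fun i : Fin I.1.length => List.ofFn fun j : Fin I.1.length => N i j) i k
            else 0) = (List.range I.1.length).map fun k => bif ent I.2 k j then N i k else 0 :=
          List.map_congr_left fun k hk => by rw [hget i hi k (List.mem_range.1 hk)]
        rw [e2, e3]
        exact e1
  · rintro ⟨w, -, hw⟩
    rw [chkF_iff] at hw
    obtain ⟨h1, h2, h3, h4⟩ := hw
    exact ⟨h1, h2, h3, entN w, h4⟩

end Pool.Agent.NPC.R892
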