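import Pool.Agent.R892.Half.Mem

/-!
# Denominator one: isomorphisms
-/

set_option autoImplicit false
set_option linter.unusedSectionVars false

namespace Pool.Agent.R892.Half

variable {V : Type} [Fintype V]

theorem fracIso_one_iff (G H : SimpleGraph V) : FracIso 1 G H ↔ Nonempty (G ≃g H) := by
  classical
  rw [fracIso_iff one_ne_zero]
  constructor
  · rintro ⟨N, h1, h2, h3⟩
    have hex : ∀ u, ∃ v, N u v ≠ 0 := by
      intro u
      by_contra hc
      push Not at hc
      have := h1 u
      rw [Finset.sum_eq_zero fun v _ => hc v] at this
      exact absurd this (by norm_num)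
    choose π hπ using hex
    have hN : ∀ u v, N u v = if v = π u then 1 else 0 := by
      intro u v
      have e1 := h1 u
      rw [← Finset.add_sum_erase _ _ (Finset.mem_univ (π u))] at e1
      have e2 := hπ u
      by_cases hv : v = π u
      · rw [if_pos hv, hv]; omega
      · rw [if_neg hv]
        have e3 : N u v ≤ ∑ x ∈ Finset.univ.erase (π u), N u x :=
          Finset.single_le_sum (f := fun x => N u x) (fun _ _ => Nat.zero_le _)
            (Finset.mem_erase.2 ⟨hv, Finset.mem_univ _⟩)
        omega
    have hinj : Function.Injective π := by
      intro u u' huu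
      by_contra hne
      have e1 := h2 (π u)
      have e2 : ∑ x ∈ ({u, u'} : Finset V), N x (π u) ≤ ∑ x, N x (π u) :=
        Finset.sum_le_sum_of_subset (Finset.subset_univ _)
      rw [Finset.sum_pair hne, hN, hN, if_pos rfl, if_pos huu] at e2
      omega
    refine ⟨⟨Equiv.ofBijective π (Finite.injective_iff_bijective.1 hinj), ?_⟩⟩
    intro u x
    show H.Adj (π u) (π x) ↔ G.Adj u x
    have := h3 u (π x)
    have f1 : ∑ w, (if G.Adj u w then N w (π x) else 0) = if G.Adj u x then 1 else 0 := by
      rw [Finset.sum_eq_single x]
      · rw [hN, if_pos rfl]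
      · intro w _ hw
        rw [hN, if_neg fun h => hw (hinj h).symm, ite_self]
      · exact fun h => absurd (Finset.mem_univ _) h
    have f2 : ∑ w, (if H.Adj w (π x) then N u w else 0) = if H.Adj (π u) (π x) then 1 else 0 := by
      rw [Finset.sum_eq_single (π u)]
      · rw [hN, if_pos rfl]
      · intro w _ hw
        rw [hN, if_neg hw, ite_self]
      · exact fun h => absurd (Finset.mem_univ _) h
    rw [f1, f2] at this
    by_cases hg : G.Adj u x <;> by_cases hh : H.Adj (π u) (π x) <;> simp_all
  · rintro ⟨e⟩
    refine ⟨fun u v => if v = e u then 1 else 0, fun u => ?_, fun v => ?_, fun u v => ?_⟩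
    · rw [Finset.sum_ite_eq' Finset.univ (e u), if_pos (Finset.mem_univ _)]
    · show ∑ u, (if v = e u then 1 else 0) = 1
      rw [Finset.sum_eq_single (e.symm v)]
      · exact if_pos (show v = e (e.symm v) by simp)
      · intro w _ hw
        refine if_neg ?_
        rintro rfl
        exact hw (by simp)
      · exact fun h => absurd (Finset.mem_univ _) h
    · have f1 : ∑ w, (if G.Adj u w then (if v = e w then 1 else 0) else 0) =
          if G.Adj u (e.symm v) then 1 else 0 := by
        rw [Finset.sum_eq_single (e.symm v)]
        · rw [if_pos (show v = e (e.symm v) by simp)]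
        · intro w _ hw
          have : ¬ v = e w := by
            rintro rfl
            exact hw (by simp)
          rw [if_neg this, ite_self]
        · exact fun h => absurd (Finset.mem_univ _) h
      have f2 : ∑ w, (if H.Adj w v then (if w = e u then 1 else 0) else 0) =
          if H.Adj (e u) v then 1 else 0 := by
        rw [Finset.sum_eq_single (e u)]
        · rw [if_pos rfl]
        · intro w _ hw
          rw [if_neg hw, ite_self]
        · exact fun h => absurd (Finset.mem_univ _) h
      have f3 : G.Adj u (e.symm v) ↔ H.Adj (e u) v := by
        rw [← e.map_adj_iff]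
        simp
      rw [f1, f2]
      simp only [f3]

end Pool.Agent.R892.Half
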