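import Pool.Agent.R892.Half.Lab
import Pool.Agent.R892.Half.Mem
import Pool.Agent.H958R2.NLT.X13Hard

/-!
# Half-integral isomorphisms: the reduction
-/

set_option autoImplicit false
set_option linter.unusedSectionVars false

namespace Pool.Agent.R892.Half

open Pool.Agent.NPC Pool.Agent.NPC.R671 Pool.Agent.H958R2

/-- Positive exactly-one-in-three satisfiability. -/
def P13 (φ : List (ℕ × ℕ × ℕ)) : Prop :=
  ∃ τ : ℕ → Bool, ∀ c ∈ φ, one3 (τ c.1) (τ c.2.1) (τ c.2.2) = true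

/-- The variable of a literal. -/
def vr (l : Lit ℕ) : ℕ := bif l.1 then 2 * l.2 + 2 else 2 * l.2 + 3

/-- The clauses of a clause. -/
def cls (c : Lit ℕ × Lit ℕ × Lit ℕ) : List (ℕ × ℕ × ℕ) :=
  [(vr c.1, vr c.2.1, vr c.2.2), (2 * c.1.2 + 2, 2 * c.1.2 + 3, 0),
    (2 * c.2.1.2 + 2, 2 * c.2.1.2 + 3, 0), (2 * c.2.2.2 + 2, 2 * c.2.2.2 + 3, 0)]

/-- The positive formula. -/
def toP (φ : List (Lit ℕ × Lit ℕ × Lit ℕ)) : List (ℕ × ℕ × ℕ) := (0, 0, 1) :: φ.flatMap cls

/-- The extended assignment. -/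
def ext (τ : ℕ → Bool) (n : ℕ) : Bool :=
  if n = 0 then false else if n = 1 then true else
    if n % 2 = 0 then τ ((n - 2) / 2) else !τ ((n - 2) / 2)

theorem ext_even (τ : ℕ → Bool) (v : ℕ) : ext τ (2 * v + 2) = τ v := by
  have h1 : (2 * v + 2) % 2 = 0 := by omega
  have h2 : (2 * v + 2 - 2) / 2 = v := by omega
  simp only [ext, h1, h2]
  rw [if_neg (by omega), if_neg (by omega), if_pos trivial]

theorem ext_odd (τ : ℕ → Bool) (v : ℕ) : ext τ (2 * v + 3) = !τ v := by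
  have h1 : (2 * v + 3) % 2 = 1 := by omega
  have h2 : (2 * v + 3 - 2) / 2 = v := by omega
  simp only [ext, h1, h2]
  rw [if_neg (by omega), if_neg (by omega), if_neg (by omega)]

theorem ext_vr (τ : ℕ → Bool) (l : Lit ℕ) : ext τ (vr l) = (τ l.2 == l.1) := by
  rcases l with ⟨b, v⟩
  cases b
  · show ext τ (2 * v + 3) = _
    rw [ext_odd]
    cases τ v <;> rfl
  · show ext τ (2 * v + 2) = _
    rw [ext_even]
    cases τ v <;> rfl

theorem toP_iff (φ : List (Lit ℕ × Lit ℕ × Lit ℕ)) : X13 φ ↔ P13 (toP φ) := by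
  constructor
  · rintro ⟨τ, hτ⟩
    refine ⟨ext τ, fun c hc => ?_⟩
    unfold toP at hc
    rcases List.mem_cons.1 hc with rfl | hc
    · rfl
    · obtain ⟨d, hd, hc⟩ := List.mem_flatMap.1 hc
      have key : ∀ v, one3 (ext τ (2 * v + 2)) (ext τ (2 * v + 3)) (ext τ 0) = true := by
        intro v
        rw [ext_even, ext_odd]
        cases τ v <;> rfl
      unfold cls at hc
      simp only [List.mem_cons, List.not_mem_nil, or_false] at hc
      rcases hc with rfl | rfl | rfl | rfl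
      · simp only [ext_vr]
        exact hτ d hd
      · exact key _
      · exact key _
      · exact key _
  · rintro ⟨σ, hσ⟩
    have h0 := hσ (0, 0, 1) (List.mem_cons_self ..)
    have hs0 : σ 0 = false := by
      revert h0
      cases σ 0 <;> cases σ 1 <;> simp [one3]
    refine ⟨fun v => σ (2 * v + 2), fun c hc => ?_⟩
    have hm : ∀ d ∈ cls c, one3 (σ d.1) (σ d.2.1) (σ d.2.2) = true := fun d hd =>
      hσ d (List.mem_cons_of_mem _ (List.mem_flatMap.2 ⟨c, hc, hd⟩))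
    have hv : ∀ v, one3 (σ (2 * v + 2)) (σ (2 * v + 3)) (σ 0) = true →
        σ (2 * v + 3) = !σ (2 * v + 2) := by
      intro v
      rw [hs0]
      cases σ (2 * v + 2) <;> cases σ (2 * v + 3) <;> simp [one3]
    have hl : ∀ l : Lit ℕ, one3 (σ (2 * l.2 + 2)) (σ (2 * l.2 + 3)) (σ 0) = true →
        σ (vr l) = (σ (2 * l.2 + 2) == l.1) := by
      rintro ⟨b, v⟩ h
      cases b
      · show σ (2 * v + 3) = (σ (2 * v + 2) == false)
        rw [hv v h]
        cases σ (2 * v + 2) <;> rfl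
      · show σ (2 * v + 2) = (σ (2 * v + 2) == true)
        cases σ (2 * v + 2) <;> rfl
    have h1 := hl c.1 (hm (2 * c.1.2 + 2, 2 * c.1.2 + 3, 0) (by simp [cls]))
    have h2 := hl c.2.1 (hm (2 * c.2.1.2 + 2, 2 * c.2.1.2 + 3, 0) (by simp [cls]))
    have h3 := hl c.2.2 (hm (2 * c.2.2.2 + 2, 2 * c.2.2.2 + 3, 0) (by simp [cls]))
    have h4 := hm (vr c.1, vr c.2.1, vr c.2.2) (by simp [cls])
    simp only [h1, h2, h3] at h4
    exact h4

theorem gr_half (φ : List (ℕ × ℕ × ℕ)) : P13 φ ↔ FracIso 2 (gr φ false) (gr φ true) := by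
  obtain ⟨e, he⟩ := exists_equiv_gr φ
  rw [fracIso_iff (by norm_num), sol_transfer e (he false) (he true)]
  have key : ∀ i : Fin φ.length, nmF φ (oc i 0) = φ[i].1 ∧ nmF φ (oc i 1) = φ[i].2.1 ∧
      nmF φ (oc i 2) = φ[i].2.2 := by
    intro i
    have h1 : (3 * i.1 + 0) / 3 = i.1 := by omega
    have h2 : (3 * i.1 + 1) / 3 = i.1 := by omega
    have h3 : (3 * i.1 + 2) / 3 = i.1 := by omega
    have h4 : (3 * i.1 + 0) % 3 = 0 := by omega
    have h5 : (3 * i.1 + 1) % 3 = 1 := by omega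
    have h6 : (3 * i.1 + 2) % 3 = 2 := by omega
    have e0 : ((0 : Fin 3) : ℕ) = 0 := rfl
    have e1 : ((1 : Fin 3) : ℕ) = 1 := rfl
    have e2 : ((2 : Fin 3) : ℕ) = 2 := rfl
    unfold nmF nmL oc
    simp only [e0, e1, e2, h1, h2, h3, h4, h5, h6]
    rw [List.getD_eq_getElem _ _ i.2]
    exact ⟨rfl, rfl, rfl⟩
  constructor
  · rintro ⟨τ, hτ⟩
    refine exists_half (nmF φ) τ fun i => ?_
    rw [(key i).1, (key i).2.1, (key i).2.2]
    exact hτ _ (List.getElem_mem _)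
  · rintro ⟨N, hN⟩
    obtain ⟨τ, hτ⟩ := forward rfl hN
    refine ⟨τ, fun c hc => ?_⟩
    obtain ⟨i, hi, rfl⟩ := List.getElem_of_mem hc
    have := hτ ⟨i, hi⟩
    rw [(key _).1, (key _).2.1, (key _).2.2] at this
    exact this

theorem gr_quarter (φ : List (ℕ × ℕ × ℕ)) : FracIso 4 (gr φ false) (gr φ true) := by
  obtain ⟨e, he⟩ := exists_equiv_gr φ
  rw [fracIso_iff (by norm_num), sol_transfer e (he false) (he true)]
  exact exists_quarter (nmF φ)

end Pool.Agent.R892.Half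

namespace Pool.Agent.NPC.R892

open Pool.Agent.R892 Pool.Agent.R892.Half Pool.Agent.NPC.R671 Pool.Agent.H958R2

variable {α : Type} [TEnc α]

theorem poly_toP : Poly toP := by
  unfold toP
  have h : Poly (fun x : List (Lit ℕ × Lit ℕ × Lit ℕ) × (Lit ℕ × Lit ℕ × Lit ℕ) => cls x.2) := by
    unfold cls vr
    fun_prop
  have h2 : Poly (fun φ : List (Lit ℕ × Lit ℕ × Lit ℕ) => φ.flatMap cls) :=
    Poly.flatMap (F := fun _ c => cls c) Poly.id h
  exact Poly.cons (Poly.const _) h2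

theorem hardI_P13 : HardI P13 := by
  have h : HardPr (fun _ => True) P13 :=
    H958NLT.hardPr_X13.trans (f := toP) poly_toP (fun _ _ => trivial) (fun φ _ => toP_iff φ)
  exact h.toHardI

theorem poly_nmLH {f : α → List (ℕ × ℕ × ℕ)} {g : α → ℕ} (hf : Poly f) (hg : Poly g) :
    Poly (fun a => Half.nmL (f a) (g a)) := by
  unfold Half.nmL
  fun_prop

theorem poly_SLH : Poly Half.SL := by
  have hl : UPoly (fun E : List (ℕ × ℕ × ℕ) => E.length) := UPoly.length Poly.id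
  have h1 : Poly (fun E : List (ℕ × ℕ × ℕ) => List.range (3 * E.length)) :=
    UPoly.range ((UPoly.const 3).mul hl)
  unfold Half.SL
  refine Poly.filter (p := fun E (p : ℕ × ℕ) => decide (Half.nmL E p.1 = Half.nmL E p.2) &&
    (decide (p.1 < p.2) && (List.range (3 * E.length)).all fun k =>
        !(decide (p.1 < k) && (decide (k < p.2) && decide (Half.nmL E k = Half.nmL E p.1)))))
    (poly_product h1 h1) ?_
  have e1 : Poly (fun x : List (ℕ × ℕ × ℕ) × (ℕ × ℕ) => Half.nmL x.1 x.2.1) :=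
    poly_nmLH (Poly.fst Poly.id) (Poly.fst (Poly.snd Poly.id))
  have e2 : Poly (fun x : List (ℕ × ℕ × ℕ) × (ℕ × ℕ) => Half.nmL x.1 x.2.2) :=
    poly_nmLH (Poly.fst Poly.id) (Poly.snd (Poly.snd Poly.id))
  refine Poly.and (Poly.dec_eq e1 e2) (Poly.and (by fun_prop) ?_)
  refine Poly.all (p := fun (x : List (ℕ × ℕ × ℕ) × (ℕ × ℕ)) k =>
    !(decide (x.2.1 < k) && (decide (k < x.2.2) && decide (Half.nmL x.1 k = Half.nmL x.1 x.2.1))))
    (h1.comp (Poly.fst Poly.id)) ?_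
  have e3 : Poly (fun x : (List (ℕ × ℕ × ℕ) × (ℕ × ℕ)) × ℕ => Half.nmL x.1.1 x.2) :=
    poly_nmLH (Poly.fst (Poly.fst Poly.id)) (Poly.snd Poly.id)
  have e4 : Poly (fun x : (List (ℕ × ℕ × ℕ) × (ℕ × ℕ)) × ℕ => Half.nmL x.1.1 x.1.2.1) :=
    poly_nmLH (Poly.fst (Poly.fst Poly.id)) (Poly.fst (Poly.snd (Poly.fst Poly.id)))
  have e5 := Poly.dec_eq e3 e4
  fun_prop

theorem poly_rXXH {f h : α → Half.Lab} {S : α → List (ℕ × ℕ)} (hf : Poly f) (hh : Poly h)
    (hS : Poly S) : Poly (fun a => Half.rXX (S a) (f a) (h a)) := by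
  unfold Half.rXX
  fun_prop

theorem poly_rTXH {f h : α → Half.Lab} (g : Bool) (hf : Poly f) (hh : Poly h) :
    Poly (fun a => Half.rTX g (f a) (h a)) := by
  unfold Half.rTX
  fun_prop

theorem poly_rlH {f h : α → Half.Lab} {S : α → List (ℕ × ℕ)} {K : α → ℕ} (g : Bool)
    (hf : Poly f) (hh : Poly h) (hS : Poly S) (hK : Poly K) :
    Poly (fun a => Half.rl (K a) (S a) g (f a) (h a)) := by
  have e1 := poly_rXXH hf hh hS
  have e2 := poly_rTXH g hf hh
  unfold Half.rl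
  fun_prop

theorem poly_adH {f h : α → Half.Lab} {S : α → List (ℕ × ℕ)} {K : α → ℕ} (g : Bool)
    (hf : Poly f) (hh : Poly h) (hS : Poly S) (hK : Poly K) :
    Poly (fun a => Half.ad (K a) (S a) g (f a) (h a)) := by
  have e1 := poly_rlH g hf hh hS hK
  have e2 := poly_rlH g hh hf hS hK
  unfold Half.ad
  fun_prop

theorem poly_vlH : Poly (fun E : List (ℕ × ℕ × ℕ) => Half.vl E.length (Half.KK E)) := by
  have hl : UPoly (fun E : List (ℕ × ℕ × ℕ) => E.length) := UPoly.length Poly.id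
  have h1 : Poly (fun E : List (ℕ × ℕ × ℕ) => List.range E.length) := UPoly.range hl
  have h2 : Poly (fun E : List (ℕ × ℕ × ℕ) => List.range (3 * E.length)) :=
    UPoly.range ((UPoly.const 3).mul hl)
  have h3 : Poly (fun E : List (ℕ × ℕ × ℕ) => List.range (Half.KK E)) :=
    UPoly.range (((UPoly.const 12).mul hl).add (UPoly.const 2))
  have h4 : Poly (fun E : List (ℕ × ℕ × ℕ) => List.range (Half.KK E + 1)) :=
    UPoly.range ((((UPoly.const 12).mul hl).add (UPoly.const 2)).add (UPoly.const 1))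
  have h5 : Poly (fun _ : List (ℕ × ℕ × ℕ) => Half.bl) := Poly.const _
  unfold Half.vl Half.v0 Half.v1 Half.v2 Half.v3
  generalize Half.bl = rq at *
  fun_prop

theorem poly_mtrH (g : Bool) : Poly (fun E : List (ℕ × ℕ × ℕ) => Half.mtr E g) := by
  have hK : Poly Half.KK := by unfold Half.KK; fun_prop
  have hS := poly_SLH
  have hv := poly_vlH
  have h1 : Poly (fun p : (List (ℕ × ℕ × ℕ) × Half.Lab) × Half.Lab =>
      Half.ad (Half.KK p.1.1) (Half.SL p.1.1) g p.1.2 p.2) :=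
    poly_adH (f := fun p : (List (ℕ × ℕ × ℕ) × Half.Lab) × Half.Lab => p.1.2) (h := fun p => p.2)
      (S := fun p => Half.SL p.1.1) (K := fun p => Half.KK p.1.1) g (Poly.snd (Poly.fst Poly.id))
      (Poly.snd Poly.id) (hS.comp (Poly.fst (Poly.fst Poly.id)))
      (hK.comp (Poly.fst (Poly.fst Poly.id)))
  have h2 : Poly (fun p : List (ℕ × ℕ × ℕ) × Half.Lab =>
      (Half.vl p.1.length (Half.KK p.1)).map fun w =>
        Half.ad (Half.KK p.1) (Half.SL p.1) g p.2 w) :=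
    Poly.map (l := fun p : List (ℕ × ℕ × ℕ) × Half.Lab => Half.vl p.1.length (Half.KK p.1))
      (F := fun (p : List (ℕ × ℕ × ℕ) × Half.Lab) w => Half.ad (Half.KK p.1) (Half.SL p.1) g p.2 w)
      (hv.comp (Poly.fst Poly.id)) h1
  exact Poly.map (l := fun E : List (ℕ × ℕ × ℕ) => Half.vl E.length (Half.KK E))
    (F := fun E u => (Half.vl E.length (Half.KK E)).map fun w =>
      Half.ad (Half.KK E) (Half.SL E) g u w) hv h2

theorem frac_adjMatrix {D n : ℕ} (G H : SimpleGraph (Fin n)) :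
    FracIsoProblem D (adjMatrix G, adjMatrix H) ↔ FracIso D G H := by
  constructor
  · rintro ⟨n', G', H', h1, h2, h3⟩
    have hn : n' = n := by
      have := congrArg List.length h1
      rwa [length_adjMatrix, length_adjMatrix] at this
    subst hn
    rw [adjMatrix_inj h1, adjMatrix_inj h2] at h3
    exact h3
  · intro h
    exact ⟨n, G, H, rfl, rfl, h⟩

theorem hard_half : ∀ L : Set (List Bool), InNP L →
    ∃ f : List Bool → List Bool, PolyTime f ∧
    ∀ x, ∃ (n : ℕ) (G H : SimpleGraph (Fin n)), f x = bits (adjMatrix G, adjMatrix H) ∧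
      FracIso 4 G H ∧ (∀ v, (G.neighborSet v).ncard ≤ 7 ∧ (H.neighborSet v).ncard ≤ 7) ∧
      (x ∈ L ↔ FracIso 2 G H) := by
  intro L hL
  obtain ⟨g, hg, hgL⟩ := hardI_P13 L hL
  refine ⟨fun x => bits (Half.mtr (g x) false, Half.mtr (g x) true), ?_, fun x => ?_⟩
  · exact PC.toPolyTime_bits (f := fun E => (Half.mtr E false, Half.mtr E true))
      (Poly.pair (poly_mtrH false) (poly_mtrH true)) g hg
  · refine ⟨_, Half.gr (g x) false, Half.gr (g x) true, ?_, gr_quarter _, fun v =>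
      ⟨Half.gr_degree _ _ v, Half.gr_degree _ _ v⟩, ?_⟩
    · rw [Half.adjMatrix_gr, Half.adjMatrix_gr]
    · rw [hgL]
      exact gr_half _

theorem npHard_half : NPHardP (FracIsoProblem 2) := by
  intro L hL
  obtain ⟨f, hf, h⟩ := hard_half L hL
  refine ⟨f, hf, fun x => ?_⟩
  obtain ⟨n, G, H, h1, -, -, h2⟩ := h x
  rw [h2, ← frac_adjMatrix]
  constructor
  · intro h3
    exact ⟨_, h1.symm, h3⟩
  · rintro ⟨a, ha, h3⟩
    rw [h1] at ha
    rwa [bits_injective ha] at h3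

end Pool.Agent.NPC.R892
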